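import Pool.Agent.H13.NLC.Sgn

/-!
# Centralizers of parabolic lifts, and the action on an abelian normal subgroup
-/

set_option autoImplicit false

namespace Pool.Agent.H13.NLC

open Filter Topology Asymptotics

variable {G : Subgroup (Equiv.Perm Ci)} {hG : AnGrp G}

/-- The leading coefficient: limit of `(F x - x) / (x - p) ^ m`. -/
def LA (m : ℕ) (p : ℝ) (f : ℝ → ℝ) (α : ℝ) : Prop :=
  Tendsto (fun x => (f x - x) / (x - p) ^ m) (𝓝[≠] p) (𝓝 α)

theorem Van.la {f : ℝ → ℝ} {p : ℝ} {m : ℕ} {α : ℝ} (h : Van f p m α) : LA m p f α := by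
  obtain ⟨u, hu, rfl, he⟩ := h
  refine (hu.continuousAt.tendsto.mono_left nhdsWithin_le_nhds).congr' ?_
  filter_upwards [self_mem_nhdsWithin, he.filter_mono nhdsWithin_le_nhds] with x hx e
  have hx' : x - p ≠ 0 := sub_ne_zero.2 hx
  rw [e]
  field_simp

theorem la_one (m : ℕ) (p : ℝ) : LA m p (fun x => x) 0 := by
  unfold LA
  simp only [sub_self, zero_div]
  exact tendsto_const_nhds

theorem LA.unique {m : ℕ} {p : ℝ} {f : ℝ → ℝ} {α β : ℝ} (h : LA m p f α) (h' : LA m p f β) :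
    α = β := tendsto_nhds_unique h h'

/-- Additivity. -/
theorem LA.comp {m : ℕ} (hm : 2 ≤ m) {p : ℝ} {f g : ℝ → ℝ} {α β : ℝ} (hf : LA m p f α)
    (hg : LA m p g β) (hgp : g p = p) (hginj : Function.Injective g) :
    LA m p (fun x => f (g x)) (α + β) := by
  have hp0 : Tendsto (fun x : ℝ => x - p) (𝓝[≠] p) (𝓝 0) := by
    have := (continuous_sub_right p).tendsto p
    rw [sub_self] at this
    exact this.mono_left nhdsWithin_le_nhds
  -- `(g x - p) / (x - p) → 1`
  have h1 : Tendsto (fun x => (g x - p) / (x - p)) (𝓝[≠] p) (𝓝 1) := by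
    have h2 : Tendsto (fun x => 1 + (g x - x) / (x - p) ^ m * (x - p) ^ (m - 1)) (𝓝[≠] p)
        (𝓝 (1 + β * 0 ^ (m - 1))) := (tendsto_const_nhds).add (hg.mul (hp0.pow (m - 1)))
    rw [zero_pow (by omega), mul_zero, add_zero] at h2
    refine h2.congr' ?_
    filter_upwards [self_mem_nhdsWithin] with x hx
    have hx' : x - p ≠ 0 := sub_ne_zero.2 hx
    have e1 : (x - p) ^ m = (x - p) ^ (m - 1) * (x - p) := by
      rw [← pow_succ]; congr 1; omega
    rw [e1]
    field_simp
    ring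
  have hgt : Tendsto g (𝓝[≠] p) (𝓝[≠] p) := by
    rw [tendsto_nhdsWithin_iff]
    refine ⟨?_, ?_⟩
    · have h2 := h1.mul hp0
      rw [mul_zero] at h2
      have h3 := h2.add_const p
      rw [zero_add] at h3
      refine h3.congr' ?_
      filter_upwards [self_mem_nhdsWithin] with x hx
      have hx' : x - p ≠ 0 := sub_ne_zero.2 hx
      field_simp
      ring
    · filter_upwards [self_mem_nhdsWithin] with x hx e
      rw [← hgp] at e
      exact hx (hginj e)
  have hf' : Tendsto (fun x => (f x - x) / (x - p) ^ m) (𝓝[≠] p) (𝓝 α) := hf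
  have hg' : Tendsto (fun x => (g x - x) / (x - p) ^ m) (𝓝[≠] p) (𝓝 β) := hg
  have h4 := (hf'.comp hgt).mul (h1.pow m)
  rw [one_pow, mul_one] at h4
  refine (h4.add hg').congr' ?_
  filter_upwards [self_mem_nhdsWithin] with x hx
  have hx' : x - p ≠ 0 := sub_ne_zero.2 hx
  have hgx : g x - p ≠ 0 := by
    intro e
    refine hx (hginj ?_)
    rw [hgp]; linarith
  simp only [Function.comp_apply]
  rw [div_pow]
  field_simp
  ring

/-- The data: a nontrivial lift `t`, fixing `p`, parabolic at `p` (order `m ≥ 2`). -/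
structure Para (t : LGrp G hG) (p : ℝ) (m : ℕ) : Prop where
  ne : t ≠ 1
  fix : t.1 p = p
  two : 2 ≤ m
  van : ∃ α : ℝ, α ≠ 0 ∧ Van t.1 p m α

theorem Para.exists_la {t : LGrp G hG} {p : ℝ} {m : ℕ} (H : Para t p m) {a : LGrp G hG}
    (hap : a.1 p = p) (hc : t * a = a * t) : ∃ α : ℝ, LA m p a.1 α ∧ (α = 0 → a = 1) := by
  by_cases ha : a = 1
  · subst ha
    exact ⟨0, la_one m p, fun _ => rfl⟩
  · obtain ⟨n, β, hβ, h2⟩ := exists_van ha p
    obtain ⟨α, hα, h1⟩ := H.van
    have hmn := order_eq H.ne ha hc H.fix hap hα hβ h1 h2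
    subst hmn
    exact ⟨β, h2.la, fun e => (hβ e).elim⟩

/-- Lifts fixing `p` and commuting with a parabolic lift commute with each other. -/
theorem Para.comm {t : LGrp G hG} {p : ℝ} {m : ℕ} (H : Para t p m) {a b : LGrp G hG}
    (hap : a.1 p = p) (hbp : b.1 p = p) (hta : t * a = a * t) (htb : t * b = b * t) :
    a * b = b * a := by
  obtain ⟨α, hα, -⟩ := H.exists_la hap hta
  obtain ⟨β, hβ, -⟩ := H.exists_la hbp htb
  -- `c = (b a)⁻¹`
  have hcp : ((b * a)⁻¹ : LGrp G hG).1 p = p := by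
    have h1 : (b * a : LGrp G hG).1 p = p := by
      show b.1 (a.1 p) = p
      rw [hap, hbp]
    have h2 := (b * a : LGrp G hG).1.symm_apply_apply p
    rw [h1] at h2
    exact h2
  have htba : t * (b * a) = b * a * t := by
    rw [← mul_assoc, htb, mul_assoc, hta, mul_assoc]
  have htc : t * (b * a)⁻¹ = (b * a)⁻¹ * t := by
    have h0 : (b * a)⁻¹ * (t * (b * a)) * (b * a)⁻¹ = (b * a)⁻¹ * (b * a * t) * (b * a)⁻¹ := by
      rw [htba]
    have e1 : (b * a)⁻¹ * (t * (b * a)) * (b * a)⁻¹ = (b * a)⁻¹ * t := by group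
    have e2 : (b * a)⁻¹ * (b * a * t) * (b * a)⁻¹ = t * (b * a)⁻¹ := by group
    rw [e1, e2] at h0
    exact h0.symm
  obtain ⟨γ, hγ, -⟩ := H.exists_la hcp htc
  have hba : LA m p (fun x => b.1 (a.1 x)) (β + α) := LA.comp H.two hβ hα hap a.1.injective
  have h1 : LA m p (fun x => ((b * a)⁻¹ : LGrp G hG).1 (b.1 (a.1 x))) (γ + (β + α)) :=
    LA.comp H.two hγ hba (by rw [hap, hbp]) (b.1.injective.comp a.1.injective)
  have h2 : (fun x => ((b * a)⁻¹ : LGrp G hG).1 (b.1 (a.1 x))) = fun x => x := by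
    funext x
    exact (b * a : LGrp G hG).1.symm_apply_apply x
  rw [h2] at h1
  have h3 : γ + (β + α) = 0 := h1.unique (la_one m p)
  have hab : LA m p (fun x => a.1 (b.1 x)) (α + β) := LA.comp H.two hα hβ hbp b.1.injective
  have h4 : LA m p (fun x => a.1 (b.1 (((b * a)⁻¹ : LGrp G hG).1 x))) (α + β + γ) :=
    LA.comp (f := fun x => a.1 (b.1 x)) H.two hab hγ hcp ((b * a)⁻¹ : LGrp G hG).1.injective
  have hdp : (a * b * (b * a)⁻¹ : LGrp G hG).1 p = p := by
    show a.1 (b.1 (((b * a)⁻¹ : LGrp G hG).1 p)) = p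
    rw [hcp, hbp, hap]
  have htab : t * (a * b) = a * b * t := by
    rw [← mul_assoc, hta, mul_assoc, htb, mul_assoc]
  have htd : t * (a * b * (b * a)⁻¹) = a * b * (b * a)⁻¹ * t := by
    rw [← mul_assoc, htab, mul_assoc, htc, ← mul_assoc]
  obtain ⟨δ, hδ, hδ0⟩ := H.exists_la hdp htd
  have h5 : δ = α + β + γ := hδ.unique h4
  have h6 : a * b * (b * a)⁻¹ = 1 := hδ0 (by rw [h5]; linarith)
  exact mul_inv_eq_one.1 h6

/-! ### The abstract lemma -/

/-- Two additive functions with the same sign relation are proportional. -/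
theorem proportional {A : Type*} [Group A] {α β : A → ℝ} (hα : ∀ a b, α (a * b) = α a + α b)
    (hβ : ∀ a b, β (a * b) = β a + β b)
    (hs : ∀ a b, 0 < α a * α b → 0 < β a * β b) {t : A} (ht : α t ≠ 0) (a : A) :
    β a * α t = β t * α a := by
  have hz : ∀ (f : A → ℝ), (∀ a b, f (a * b) = f a + f b) → ∀ (n : ℤ) (a : A),
      f (a ^ n) = n * f a := by
    intro f hf n a
    let φ : A →* Multiplicative ℝ := MonoidHom.mk' (fun a => Multiplicative.ofAdd (f a))
      fun a b => by rw [hf]; rfl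
    have h1 := map_zpow φ a n
    have h2 := congrArg Multiplicative.toAdd h1
    rw [toAdd_zpow] at h2
    have h3 : f (a ^ n) = n • f a := h2
    rw [h3, zsmul_eq_mul]
  have hβt : β t ≠ 0 := by
    intro e
    have h1 := hs t t (mul_self_pos.2 ht)
    rw [e, mul_zero] at h1
    exact lt_irrefl _ h1
  by_contra hne
  have hxy : α a / α t ≠ β a / β t := by
    intro e
    apply hne
    rw [div_eq_div_iff ht hβt] at e
    linarith
  have key : ∀ r : ℚ, ∃ (c : A) (n : ℝ), 0 < n ∧ α c * α t = n * (α t) ^ 2 * (α a / α t - r) ∧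
      β c * β t = n * (β t) ^ 2 * (β a / β t - r) := by
    intro r
    refine ⟨a ^ (r.den : ℤ) * t ^ (-r.num), r.den, by exact_mod_cast r.pos, ?_, ?_⟩
    · rw [hα, hz α hα, hz α hα]
      have h1 : (r : ℝ) * r.den = r.num := by
        have := Rat.mul_den_eq_num r
        exact_mod_cast this
      push_cast
      have h2 : (r.den : ℝ) * α t ^ 2 * (α a / α t - r) =
          r.den * α a * α t - (r * r.den) * α t ^ 2 := by
        field_simp
      rw [h2, h1]
      ring
    · rw [hβ, hz β hβ, hz β hβ]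
      have h1 : (r : ℝ) * r.den = r.num := by
        have := Rat.mul_den_eq_num r
        exact_mod_cast this
      push_cast
      have h2 : (r.den : ℝ) * β t ^ 2 * (β a / β t - r) =
          r.den * β a * β t - (r * r.den) * β t ^ 2 := by
        field_simp
      rw [h2, h1]
      ring
  have hat : 0 < (α t) ^ 2 := by positivity
  have hbt : 0 < (β t) ^ 2 := by positivity
  rcases lt_or_gt_of_ne hxy with h | h
  · obtain ⟨r, hr1, hr2⟩ := exists_rat_btwn h
    obtain ⟨c, n, hn, e1, e2⟩ := key r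
    have h1 : α c⁻¹ = - α c := by
      have := hz α hα (-1) c
      rw [zpow_neg_one] at this
      rw [this]; push_cast; ring
    have h2 : β c⁻¹ = - β c := by
      have := hz β hβ (-1) c
      rw [zpow_neg_one] at this
      rw [this]; push_cast; ring
    have h3 : α c * α t < 0 := by
      rw [e1]
      exact mul_neg_of_pos_of_neg (mul_pos hn hat) (by linarith)
    have h4 : 0 < β c * β t := by
      rw [e2]
      exact mul_pos (mul_pos hn hbt) (by linarith)
    have h5 := hs c⁻¹ t (by rw [h1]; linarith)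
    rw [h2] at h5
    linarith
  · obtain ⟨r, hr1, hr2⟩ := exists_rat_btwn h
    obtain ⟨c, n, hn, e1, e2⟩ := key r
    have h3 : 0 < α c * α t := by
      rw [e1]
      exact mul_pos (mul_pos hn hat) (by linarith)
    have h4 : β c * β t < 0 := by
      rw [e2]
      exact mul_neg_of_pos_of_neg (mul_pos hn hbt) (by linarith)
    have h5 := hs c t h3
    linarith

/-- `A` a normal subgroup of `L` with an injective additive function `ℓ`, such that conjugation respects
the sign relation: commutators of `L` centralize `A`. -/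
theorem centralize {L : Type*} [Group L] {A : Subgroup L} [hN : A.Normal] {ℓ : A → ℝ}
    (hℓ : ∀ a b, ℓ (a * b) = ℓ a + ℓ b) (hℓ0 : ∀ a, ℓ a = 0 → a = 1)
    (hs : ∀ (g : L) (a b : A), 0 < ℓ a * ℓ b →
      0 < ℓ ⟨g * a * g⁻¹, hN.conj_mem a a.2 g⟩ * ℓ ⟨g * b * g⁻¹, hN.conj_mem b b.2 g⟩)
    (g h : L) (a : A) : (g * h * g⁻¹ * h⁻¹) * a = a * (g * h * g⁻¹ * h⁻¹) := by
  by_cases hA : ∀ t : A, ℓ t = 0
  · have h1 : a = 1 := hℓ0 a (hA a)
    rw [h1, Subgroup.coe_one, mul_one, one_mul]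
  · push Not at hA
    obtain ⟨t, ht⟩ := hA
    let c : L → A → A := fun g a => ⟨g * a * g⁻¹, hN.conj_mem a a.2 g⟩
    have hcm : ∀ g a b, c g (a * b) = c g a * c g b := by
      intro g a b
      refine Subtype.ext ?_
      show g * (a * b : L) * g⁻¹ = g * a * g⁻¹ * (g * b * g⁻¹)
      group
    have hcc : ∀ g h a, c (g * h) a = c g (c h a) := by
      intro g h a
      refine Subtype.ext ?_
      show g * h * (a : L) * (g * h)⁻¹ = g * (h * a * h⁻¹) * g⁻¹
      group
    have hμ : ∀ g : L, ∃ μ : ℝ, ∀ a, ℓ (c g a) = μ * ℓ a := by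
      intro g
      refine ⟨ℓ (c g t) / ℓ t, fun a => ?_⟩
      have h1 := proportional (α := ℓ) (β := fun a => ℓ (c g a)) hℓ
        (fun a b => by rw [hcm, hℓ]) (fun a b hab => hs g a b hab) ht a
      rw [div_mul_eq_mul_div, eq_div_iff ht]
      exact h1
    choose μ hμ using hμ
    have hinv : ∀ g, μ g * μ g⁻¹ = 1 := by
      intro g
      have h1 : c (g * g⁻¹) t = t := by
        refine Subtype.ext ?_
        show g * g⁻¹ * (t : L) * (g * g⁻¹)⁻¹ = t
        group
      rw [hcc] at h1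
      have h2 : ℓ (c g (c g⁻¹ t)) = μ g * (μ g⁻¹ * ℓ t) := by rw [hμ, hμ]
      rw [h1] at h2
      have h3 : (μ g * μ g⁻¹ - 1) * ℓ t = 0 := by linarith
      rcases mul_eq_zero.1 h3 with h4 | h4
      · linarith
      · exact (ht h4).elim
    have h1 : ℓ (c (g * h * g⁻¹ * h⁻¹) a) = ℓ a := by
      rw [hcc, hcc, hcc, hμ, hμ, hμ, hμ]
      have e1 := hinv g
      have e2 := hinv h
      calc μ g * (μ h * (μ g⁻¹ * (μ h⁻¹ * ℓ a))) = (μ g * μ g⁻¹) * (μ h * μ h⁻¹) * ℓ a := by ring
        _ = ℓ a := by rw [e1, e2]; ring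
    have hinvℓ : ∀ b : A, ℓ b⁻¹ = - ℓ b := by
      intro b
      have h2 := hℓ b b⁻¹
      rw [mul_inv_cancel] at h2
      have h3 := hℓ 1 1
      rw [mul_one] at h3
      linarith
    have h2 : c (g * h * g⁻¹ * h⁻¹) a * a⁻¹ = 1 := by
      apply hℓ0
      rw [hℓ, hinvℓ, h1]
      ring
    have h3 : c (g * h * g⁻¹ * h⁻¹) a = a := mul_inv_eq_one.1 h2
    have h4 := congrArg Subtype.val h3
    have h5 : (g * h * g⁻¹ * h⁻¹) * a * (g * h * g⁻¹ * h⁻¹)⁻¹ = a := h4
    exact mul_inv_eq_iff_eq_mul.1 h5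

end Pool.Agent.H13.NLC
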