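import Mathlib

/-!
# Hoelder's theorem for groups of order automorphisms

`X` a linear order, `H` a subgroup of `X ≃o X` such that every element is the identity, or moves every
point up, or moves every point down, and the elements which move points up are archimedean.  Then
`H` is commutative.
-/

set_option autoImplicit false

namespace Pool.Agent.H13.NLC

variable {X : Type*} [LinearOrder X]

/-- `a` moves every point up. -/
def Up (a : X ≃o X) : Prop := ∀ x, x < a x

theorem Up.mul {a b : X ≃o X} (ha : Up a) (hb : Up b) : Up (a * b) := fun x =>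
  (hb x).trans (ha (b x))

theorem Up.conj {a : X ≃o X} (ha : Up a) (g : X ≃o X) : Up (g * a * g⁻¹) := fun x => by
  have h1 := g.strictMono (ha (g⁻¹ x))
  have h2 : g (g⁻¹ x) = x := by
    rw [← RelIso.mul_apply, mul_inv_cancel, RelIso.one_apply]
  rw [h2] at h1
  exact h1

theorem Up.conj' {a : X ≃o X} (ha : Up a) (g : X ≃o X) : Up (g⁻¹ * a * g) := by
  have h1 := ha.conj g⁻¹
  rwa [inv_inv] at h1

theorem up_swap {a b : X ≃o X} (h : Up (a⁻¹ * b)) : Up (b * a⁻¹) := by
  have h1 := h.conj a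
  have h2 : a * (a⁻¹ * b) * a⁻¹ = b * a⁻¹ := by group
  rwa [h2] at h1

structure Arch (H : Subgroup (X ≃o X)) : Prop where
  tri : ∀ a ∈ H, a = 1 ∨ Up a ∨ Up a⁻¹
  arch : ∀ a ∈ H, Up a → ∀ b ∈ H, ∃ n : ℕ, Up (b⁻¹ * a ^ n)

theorem not_up_one [Nonempty X] : ¬ Up (1 : X ≃o X) := fun h => by
  obtain ⟨x⟩ := ‹Nonempty X›
  exact absurd (h x) (by simp)

theorem not_up_inv [Nonempty X] {a : X ≃o X} (h : Up a) : ¬ Up a⁻¹ := fun h' => by
  have h1 := h.mul h'
  rw [mul_inv_cancel] at h1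
  exact not_up_one h1

theorem up_zpow {d : X ≃o X} (hd : Up d) {m : ℤ} (hm : 0 < m) : Up (d ^ m) := by
  obtain ⟨k, rfl⟩ : ∃ k : ℕ, m = k + 1 := ⟨(m - 1).toNat, by omega⟩
  clear hm
  induction k with
  | zero => simpa using hd
  | succ k ih =>
    have h1 := ih.mul hd
    rw [← zpow_add_one] at h1
    push_cast
    exact h1

/-- For `d` up and `x ∈ H` there is `n` with `d ^ n ≤ x < d ^ (n + 1)`. -/
theorem Arch.near [Nonempty X] {H : Subgroup (X ≃o X)} (hH : Arch H) {d x : X ≃o X} (hd : d ∈ H)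
    (hu : Up d) (hx : x ∈ H) :
    ∃ n : ℤ, (x = d ^ n ∨ Up ((d ^ n)⁻¹ * x)) ∧ Up (x⁻¹ * d ^ (n + 1)) := by
  classical
  obtain ⟨N, hN⟩ := hH.arch d hd hu x hx
  obtain ⟨M, hM⟩ := hH.arch d hd hu x⁻¹ (H.inv_mem hx)
  -- the set of `n : ℤ` with `x < d ^ n` is nonempty and bounded below
  have hb : ∀ z : ℤ, Up (x⁻¹ * d ^ z) → -(M : ℤ) ≤ z := by
    intro z hz
    by_contra hlt
    push Not at hlt
    rw [inv_inv] at hM
    have h1 := hM.conj' x
    have h2 : x⁻¹ * (x * d ^ M) * x = d ^ M * x := by group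
    rw [h2] at h1
    have h3 := h1.mul hz
    have h4 : d ^ M * x * (x⁻¹ * d ^ z) = d ^ ((M : ℤ) + z) := by
      rw [zpow_add, zpow_natCast]; group
    rw [h4] at h3
    have h5 : Up (d ^ (-((M : ℤ) + z))) := up_zpow hu (by omega)
    rw [zpow_neg] at h5
    exact not_up_inv h3 h5
  have hne : ∃ z : ℤ, Up (x⁻¹ * d ^ z) := ⟨N, by rw [zpow_natCast]; exact hN⟩
  obtain ⟨z, hz1, hz2⟩ := Int.exists_least_of_bdd (P := fun z => Up (x⁻¹ * d ^ z))
    ⟨-(M : ℤ), hb⟩ hne
  refine ⟨z - 1, ?_, by rw [sub_add_cancel]; exact hz1⟩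
  have hmem : (d ^ (z - 1))⁻¹ * x ∈ H := H.mul_mem (H.inv_mem (H.zpow_mem hd _)) hx
  rcases hH.tri _ hmem with h | h | h
  · left
    have := congrArg (fun t => d ^ (z - 1) * t) h
    simpa using this
  · right; exact h
  · exfalso
    have h1 : ((d ^ (z - 1))⁻¹ * x)⁻¹ = x⁻¹ * d ^ (z - 1) := by group
    rw [h1] at h
    have := hz2 (z - 1) h
    omega

theorem Arch.comm_aux [Nonempty X] {H : Subgroup (X ≃o X)} (hH : Arch H) {a b : X ≃o X}
    (ha : a ∈ H) (hb : b ∈ H) (hc : Up (a * b * a⁻¹ * b⁻¹)) : False := by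
  set c := a * b * a⁻¹ * b⁻¹ with hcdef
  have hcm : c ∈ H := H.mul_mem (H.mul_mem (H.mul_mem ha hb) (H.inv_mem ha)) (H.inv_mem hb)
  by_cases hd : ∃ d ∈ H, Up d ∧ (c = d * d ∨ Up ((d * d)⁻¹ * c))
  · obtain ⟨d, hd, hdu, hdc⟩ := hd
    obtain ⟨m, hm1, hm2⟩ := hH.near hd hdu ha
    obtain ⟨n, hn1, hn2⟩ := hH.near hd hdu hb
    -- `a * b < d ^ (m + n + 2)`
    have e1 : Up ((a * b)⁻¹ * d ^ (m + n + 2)) := by
      have h1 := (hm2.conj' (d ^ (n + 1))).mul hn2 |>.conj' 1
      -- `a < d ^ (m+1)` and `b < d ^ (n+1)`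
      have h2 := hm2.conj' b
      have h3 := h2.mul hn2
      have h4 : b⁻¹ * (a⁻¹ * d ^ (m + 1)) * b * (b⁻¹ * d ^ (n + 1)) =
          (a * b)⁻¹ * d ^ (m + n + 2) := by
        have : d ^ (m + n + 2) = d ^ (m + 1) * d ^ (n + 1) := by
          rw [← zpow_add]; congr 1; ring
        rw [this]; group
      rwa [h4] at h3
    -- `d ^ (m + n) ≤ b * a`
    have e2 : b * a = d ^ (m + n) ∨ Up ((d ^ (m + n))⁻¹ * (b * a)) := by
      rcases hn1 with h1 | h1 <;> rcases hm1 with h2 | h2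
      · left; rw [h1, h2, ← zpow_add]; congr 1; ring
      · right
        rw [h1]
        have h3 : (d ^ (m + n))⁻¹ * (d ^ n * a) = (d ^ m)⁻¹ * a := by
          rw [zpow_add]
          have : d ^ m * d ^ n = d ^ n * d ^ m := by rw [← zpow_add, ← zpow_add, add_comm]
          rw [this]; group
        rw [h3]; exact h2
      · right
        rw [h2]
        have h3 := h1.conj' (d ^ m)
        have h4 : (d ^ m)⁻¹ * ((d ^ n)⁻¹ * b) * d ^ m = (d ^ (m + n))⁻¹ * (b * d ^ m) := by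
          have : d ^ (m + n) = d ^ n * d ^ m := by rw [← zpow_add, add_comm]
          rw [this]; group
        rwa [h4] at h3
      · right
        have h3 := (h1.conj' a).mul h2
        have h3' := (h1.conj' (d ^ m)).mul (h2.conj' 1)
        -- `(d^(m+n))⁻¹ b a = (d^m)⁻¹ ((d^n)⁻¹ b) d^m * (d^m)⁻¹ a`
        have h5 := (h1.conj' (d ^ m)).mul h2
        have h4 : (d ^ m)⁻¹ * ((d ^ n)⁻¹ * b) * d ^ m * ((d ^ m)⁻¹ * a) =
            (d ^ (m + n))⁻¹ * (b * a) := by
          have : d ^ (m + n) = d ^ n * d ^ m := by rw [← zpow_add, add_comm]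
          rw [this]; group
        rwa [h4] at h5
    -- `c * (b * a) = a * b`
    have e3 : c * (b * a) = a * b := by rw [hcdef]; group
    -- `c < d ^ 2`
    have e4 : Up (c⁻¹ * (d * d)) := by
      have h0 : d ^ (m + n + 2) = d * d * d ^ (m + n) := by
        rw [show m + n + 2 = 1 + 1 + (m + n) by ring, zpow_add, zpow_add, zpow_one]
      rw [← e3, h0] at e1
      clear h0 hdc
      generalize d ^ (m + n) = D at e1 e2
      generalize d * d = P at e1 ⊢
      -- `Up ((c * (b*a))⁻¹ * (P * D))`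
      rcases e2 with h1 | h1
      · rw [h1] at e1
        have h2 := e1.conj D
        have h3 : D * ((c * D)⁻¹ * (P * D)) * D⁻¹ = c⁻¹ * P := by group
        rwa [h3] at h2
      · -- conjugate both to the right place
        have h2 := e1.conj (b * a)
        have h3 : b * a * ((c * (b * a))⁻¹ * (P * D)) * (b * a)⁻¹ =
            c⁻¹ * P * (D * (b * a)⁻¹) := by group
        rw [h3] at h2
        have h4 := up_swap h1
        have h5 := h2.mul h4
        have h6 : c⁻¹ * P * (D * (b * a)⁻¹) * (b * a * D⁻¹) = c⁻¹ * P := by group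
        rwa [h6] at h5
    rcases hdc with h | h
    · rw [h, inv_mul_cancel] at e4
      exact not_up_one e4
    · have h1 := e4.mul (h.conj' 1)
      have h2 := (e4.mul h)
      have h3 : c⁻¹ * (d * d) * ((d * d)⁻¹ * c) = 1 := by group
      rw [h3] at h2
      exact not_up_one h2
  · -- `c` is the least positive element
    push Not at hd
    have hleast : ∀ e ∈ H, Up e → ¬ Up (e⁻¹ * c) := by
      intro e he heu hec
      have hf : e⁻¹ * c ∈ H := H.mul_mem (H.inv_mem he) hcm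
      rcases hH.tri (e⁻¹ * (e⁻¹ * c)) (H.mul_mem (H.inv_mem he) hf) with h | h | h
      · refine (hd e he heu).1 ?_
        have := congrArg (fun t => e * (e * t)) h
        simpa [mul_assoc] using this
      · refine (hd e he heu).2 ?_
        have h1 : (e * e)⁻¹ * c = e⁻¹ * (e⁻¹ * c) := by group
        rw [h1]; exact h
      · refine (hd (e⁻¹ * c) hf hec).2 ?_
        have h1 : (e⁻¹ * (e⁻¹ * c))⁻¹ = (e⁻¹ * c)⁻¹ * e := by
          rw [mul_inv_rev e⁻¹, inv_inv]
        rw [h1] at h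
        have h2 := h.conj' (e⁻¹ * c)
        have h3 : (e⁻¹ * c)⁻¹ * ((e⁻¹ * c)⁻¹ * e) * (e⁻¹ * c) =
            (e⁻¹ * c * (e⁻¹ * c))⁻¹ * c := by
          rw [mul_inv_rev (e⁻¹ * c)]
          simp only [mul_assoc, mul_inv_cancel_left]
        rwa [h3] at h2
    have hpow : ∀ x ∈ H, ∃ n : ℤ, x = c ^ n := by
      intro x hx
      obtain ⟨n, hn1, hn2⟩ := hH.near hcm hc hx
      refine ⟨n, ?_⟩
      rcases hn1 with h | h
      · exact h
      · exfalso
        refine hleast _ (H.mul_mem (H.inv_mem (H.zpow_mem hcm n)) hx) h ?_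
        have h1 : ((c ^ n)⁻¹ * x)⁻¹ * c = x⁻¹ * c ^ (n + 1) := by
          rw [zpow_add, zpow_one]; group
        rw [h1]; exact hn2
    obtain ⟨m, hm⟩ := hpow a ha
    obtain ⟨n, hn⟩ := hpow b hb
    have h1 : c = 1 := by
      rw [hcdef]
      rw [hm, hn]
      have : c ^ m * c ^ n = c ^ n * c ^ m := by rw [← zpow_add, ← zpow_add, add_comm]
      rw [this]; group
    rw [h1] at hc
    exact not_up_one hc

/-- Hoelder's theorem. -/
theorem Arch.comm [Nonempty X] {H : Subgroup (X ≃o X)} (hH : Arch H) {a b : X ≃o X}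
    (ha : a ∈ H) (hb : b ∈ H) : a * b = b * a := by
  have hcm : a * b * a⁻¹ * b⁻¹ ∈ H :=
    H.mul_mem (H.mul_mem (H.mul_mem ha hb) (H.inv_mem ha)) (H.inv_mem hb)
  rcases hH.tri _ hcm with h | h | h
  · have h1 : a * b = a * b * a⁻¹ * b⁻¹ * (b * a) := by group
    rw [h1, h, one_mul]
  · exact (hH.comm_aux ha hb h).elim
  · have h1 : (a * b * a⁻¹ * b⁻¹)⁻¹ = b * a * b⁻¹ * a⁻¹ := by group
    rw [h1] at h
    exact (hH.comm_aux hb ha h).elim

end Pool.Agent.H13.NLC
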