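import Mathlib

/-!
# Ping-pong from one element with finite attracting set

`Γ` acts on a Hausdorff space, `S` is a finite nonempty set whose points have infinite orbits, and the large
powers of `g` map the complement of every neighbourhood of `S` into this neighbourhood.  Then `Γ`
contains free subgroups of every finite rank (conjugates of powers of `g`).
-/

set_option autoImplicit false

namespace Pool.Agent.H13.NLC

open scoped Pointwise

/-- Neumann's separation lemma. -/
theorem displace {Γ X : Type*} [Group Γ] [MulAction Γ X] {A B : Set X} (hA : A.Finite)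
    (hB : B.Finite) (horb : ∀ a ∈ A, (MulAction.orbit Γ a).Infinite) :
    ∃ h : Γ, ∀ a ∈ A, h • a ∉ B := by
  classical
  by_contra hcon
  push Not at hcon
  -- index set: pairs `(a, b)` with `a ∈ A`, `b ∈ B`, `b ∈ orbit a`
  let P : Set (X × X) := {p | p ∈ A ×ˢ B ∧ ∃ g : Γ, g • p.1 = p.2}
  have hP : P.Finite := (hA.prod hB).subset fun p hp => hp.1
  have hex : ∀ p : X × X, ∃ g : Γ, p ∈ P → g • p.1 = p.2 := by
    intro p
    by_cases hp : p ∈ P
    · obtain ⟨g, hg⟩ := hp.2
      exact ⟨g, fun _ => hg⟩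
    · exact ⟨1, fun h => (hp h).elim⟩
  choose g hg using hex
  have hcov : ⋃ p ∈ hP.toFinset, g p • (MulAction.stabilizer Γ p.1 : Set Γ) = Set.univ := by
    rw [Set.eq_univ_iff_forall]
    intro h
    obtain ⟨a, ha, hb⟩ := hcon h
    have hp : (a, h • a) ∈ P := ⟨⟨ha, hb⟩, h, rfl⟩
    simp only [Set.mem_iUnion]
    refine ⟨(a, h • a), hP.mem_toFinset.2 hp, ?_⟩
    rw [mem_leftCoset_iff, SetLike.mem_coe, MulAction.mem_stabilizer_iff, mul_smul]
    have h1 := hg (a, h • a) hp
    rw [inv_smul_eq_iff]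
    exact h1.symm
  obtain ⟨p, hp, hfin⟩ := Subgroup.exists_finiteIndex_of_leftCoset_cover hcov
  rw [hP.mem_toFinset] at hp
  refine horb p.1 hp.1.1 ?_
  have h1 : Finite (Γ ⧸ MulAction.stabilizer Γ p.1) := by
    have := hfin
    exact Subgroup.finite_quotient_of_finiteIndex
  have : Finite (MulAction.orbit Γ p.1) :=
    Finite.of_equiv _ (MulAction.orbitEquivQuotientStabilizer Γ p.1).symm
  exact Set.toFinite _

theorem displace_many {Γ X : Type*} [Group Γ] [MulAction Γ X] {S : Set X} (hS : S.Finite)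
    (horb : ∀ a ∈ S, (MulAction.orbit Γ a).Infinite) (r : ℕ) :
    ∃ h : Fin r → Γ, ∀ i j, i ≠ j → ∀ a ∈ S, ∀ b ∈ S, h i • a ≠ h j • b := by
  induction r with
  | zero => exact ⟨fun _ => 1, fun i => i.elim0⟩
  | succ r ih =>
    obtain ⟨h, hh⟩ := ih
    have hB : (⋃ i : Fin r, (fun a => h i • a) '' S).Finite :=
      Set.finite_iUnion fun i => hS.image _
    obtain ⟨g, hg⟩ := displace hS hB horb
    refine ⟨Fin.cons g h, ?_⟩
    have key : ∀ (j : Fin r), ∀ a ∈ S, ∀ b ∈ S, g • a ≠ h j • b := by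
      intro j a ha b hb e
      refine hg a ha ?_
      rw [e]
      exact Set.mem_iUnion.2 ⟨j, b, hb, rfl⟩
    intro i j
    refine Fin.cases ?_ (fun i => ?_) i <;> refine Fin.cases ?_ (fun j => ?_) j
    · intro hij
      exact (hij rfl).elim
    · intro _ a ha b hb
      simp only [Fin.cons_zero, Fin.cons_succ]
      exact key j a ha b hb
    · intro _ a ha b hb
      simp only [Fin.cons_zero, Fin.cons_succ]
      exact (key i b hb a ha).symm
    · intro hij a ha b hb
      simp only [Fin.cons_succ]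
      exact hh i j (fun e => hij (by rw [e])) a ha b hb

/-- The ping-pong argument. -/
theorem free_of_dyn {Γ X : Type*} [Group Γ] [MulAction Γ X] [TopologicalSpace X] [T2Space X]
    (hcont : ∀ γ : Γ, Continuous fun x : X => γ • x) {S : Set X} (hS : S.Finite)
    (hne : S.Nonempty) (horb : ∀ a ∈ S, (MulAction.orbit Γ a).Infinite) (g : Γ)
    (hdyn : ∀ W : Set X, IsOpen W → S ⊆ W → ∃ N : ℕ, 1 ≤ N ∧ ∀ n : ℤ, (N : ℤ) ≤ |n| →
      ∀ x ∉ W, g ^ n • x ∈ W) (r : ℕ) :
    ∃ a : Fin (r + 2) → Γ, Function.Injective (FreeGroup.lift a) := by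
  classical
  obtain ⟨h, hh⟩ := displace_many hS horb (r + 2)
  let T : Set X := ⋃ i, (fun a => h i • a) '' S
  have hT : T.Finite := Set.finite_iUnion fun i => hS.image _
  obtain ⟨U, hU1, hU2⟩ := hT.t2_separation
  -- the neighbourhood
  let V : Fin (r + 2) → Set X := fun i => ⋃ a ∈ S, U (h i • a)
  have hVopen : ∀ i, IsOpen (V i) := fun i =>
    isOpen_biUnion fun a ha => (hU1 _).2
  let W : Set X := ⋂ i, (fun x => h i • x) ⁻¹' V i
  have hWopen : IsOpen W := isOpen_iInter_of_finite fun i => (hVopen i).preimage (hcont (h i))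
  have hSW : S ⊆ W := by
    intro a ha
    refine Set.mem_iInter.2 fun i => ?_
    show h i • a ∈ V i
    exact Set.mem_biUnion ha (hU1 _).1
  obtain ⟨N, hN1, hN⟩ := hdyn W hWopen hSW
  have hVdisj : ∀ i j, i ≠ j → Disjoint (V i) (V j) := by
    intro i j hij
    rw [Set.disjoint_left]
    intro x hx hx'
    obtain ⟨a, ha, hxa⟩ := Set.mem_iUnion₂.1 hx
    obtain ⟨b, hb, hxb⟩ := Set.mem_iUnion₂.1 hx'
    have h1 : h i • a ∈ T := Set.mem_iUnion.2 ⟨i, a, ha, rfl⟩
    have h2 : h j • b ∈ T := Set.mem_iUnion.2 ⟨j, b, hb, rfl⟩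
    have h3 := hU2 h1 h2 (hh i j hij a ha b hb)
    exact Set.disjoint_left.1 h3 hxa hxb
  let Y : Fin (r + 2) → Set X := fun i => (fun x => (h i)⁻¹ • x) ⁻¹' W
  have hYV : ∀ i, Y i ⊆ V i := by
    intro i x hx
    have h1 := Set.mem_iInter.1 hx i
    have h2 : h i • (h i)⁻¹ • x ∈ V i := h1
    rwa [smul_inv_smul] at h2
  let a : Fin (r + 2) → Γ := fun i => h i * g ^ N * (h i)⁻¹
  refine ⟨a, ?_⟩
  have e1 : FreeGroup.lift a =
      (Monoid.CoprodI.lift fun i => FreeGroup.lift fun _ : Unit => a i).comp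
        (freeGroupEquivCoprodI (ι := Fin (r + 2))).toMonoidHom := by
    ext i
    simp
  rw [e1, MonoidHom.coe_comp]
  refine Function.Injective.comp ?_ (MulEquiv.injective freeGroupEquivCoprodI)
  have : Nontrivial (Fin (r + 2)) := inferInstance
  refine Monoid.CoprodI.lift_injective_of_ping_pong
    (fun i : Fin (r + 2) => FreeGroup.lift fun _ : Unit => a i) ?_ Y ?_ ?_ ?_
  · right
    refine ⟨0, ?_⟩
    rw [FreeGroup.freeGroupUnitEquivInt.cardinal_eq, Cardinal.mk_denumerable]
    exact Cardinal.natCast_le_aleph0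
  · intro i
    obtain ⟨x, hx⟩ := hne
    refine ⟨h i • x, ?_⟩
    show (h i)⁻¹ • h i • x ∈ W
    rw [inv_smul_smul]
    exact hSW hx
  · intro i j hij
    exact (hVdisj i j hij).mono (hYV i) (hYV j)
  · intro i j hij
    have key : ∀ n : ℤ, n ≠ 0 → a i ^ n • Y j ⊆ Y i := by
      intro n hn
      rintro _ ⟨x, hx, rfl⟩
      have h1 : x ∉ Y i := fun hx' =>
        Set.disjoint_left.1 (hVdisj i j hij) (hYV i hx') (hYV j hx)
      have h2 : a i ^ n = h i * g ^ ((N : ℤ) * n) * (h i)⁻¹ := by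
        show (h i * g ^ N * (h i)⁻¹) ^ n = _
        rw [conj_zpow, zpow_mul, zpow_natCast]
      show (h i)⁻¹ • (a i ^ n • x) ∈ W
      rw [h2, ← mul_smul]
      have h3 : (h i)⁻¹ * (h i * g ^ ((N : ℤ) * n) * (h i)⁻¹) =
          g ^ ((N : ℤ) * n) * (h i)⁻¹ := by group
      rw [h3, mul_smul]
      refine hN _ ?_ _ h1
      rw [abs_mul, Nat.abs_cast]
      have h4 : 1 ≤ |n| := Int.one_le_abs hn
      nlinarith [h4, Int.natCast_nonneg N]
    refine FreeGroup.freeGroupUnitEquivInt.forall_congr_left.mpr ?_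
    intro n hne1
    have h1 : (FreeGroup.lift fun _ : Unit => a i) (FreeGroup.freeGroupUnitEquivInt.symm n) =
        a i ^ n := by
      show (FreeGroup.lift fun _ : Unit => a i) (FreeGroup.of () ^ n) = _
      rw [map_zpow, FreeGroup.lift_apply_of]
    rw [h1]
    refine key n ?_
    rintro rfl
    apply hne1
    simp [FreeGroup.freeGroupUnitEquivInt]

end Pool.Agent.H13.NLC
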