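import Pool.Agent.H13.NLC.Lift
import Pool.Agent.H13.NLC.Hold
import Pool.Agent.H13.NLC.Pong

/-!
# Dynamics: free actions are abelian; an element with a fixed point gives ping-pong
-/

set_option autoImplicit false

namespace Pool.Agent.H13.NLC

open Filter Topology Pool.Agent.H81.NL

/-! ### Free actions -/

theorem tri_real {F : ℝ ≃o ℝ} (h : ∀ x, F x ≠ x) : Up F ∨ Up F⁻¹ := by
  by_cases h1 : ∃ x, F x < x
  · right
    obtain ⟨x₀, hx₀⟩ := h1
    have h2 : ∀ x, F x < x := by
      intro x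
      by_contra hx
      push Not at hx
      obtain ⟨z, hz⟩ := intermediate_value_univ₂ F.continuous continuous_id
        (a := x₀) (b := x) hx₀.le hx
      exact h z hz
    intro x
    have h3 := h2 (F⁻¹ x)
    have h4 : F (F⁻¹ x) = x := F.apply_symm_apply x
    rwa [h4] at h3
  · left
    push Not at h1
    exact fun x => lt_of_le_of_ne (h1 x) (h x).symm

theorem iterate_pow {X : Type*} [LE X] (F : X ≃o X) (n : ℕ) (x : X) : (F ^ n) x = F^[n] x := by
  induction n with
  | zero => rfl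
  | succ n ih => rw [pow_succ', RelIso.mul_apply, ih, Function.iterate_succ_apply']

theorem arch_real {F : ℝ ≃o ℝ} (h : Up F) (x y : ℝ) : ∃ n : ℕ, y < (F ^ n) x := by
  by_contra hcon
  push Not at hcon
  have hmono : Monotone fun n : ℕ => F^[n] x := monotone_nat_of_le_succ fun n => by
    show F^[n] x ≤ F^[n + 1] x
    rw [Function.iterate_succ_apply']
    exact (h _).le
  have hbdd : BddAbove (Set.range fun n : ℕ => F^[n] x) := by
    refine ⟨y, ?_⟩
    rintro _ ⟨n, rfl⟩
    have := hcon n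
    rwa [iterate_pow] at this
  have h1 := tendsto_atTop_ciSup hmono hbdd
  have h2 := isFixedPt_of_tendsto_iterate h1 F.continuous.continuousAt
  have h3 := h (⨆ n : ℕ, F^[n] x)
  rw [show F (⨆ n : ℕ, F^[n] x) = _ from h2] at h3
  exact lt_irrefl _ h3

variable {G : Subgroup (Equiv.Perm Ci)} {hG : AnGrp G}

/-- A lift without fixed points other than the identity: free actions. -/
theorem arch_LGrp (hfree : ∀ σ ∈ G, (∃ x : Ci, σ x = x) → σ = 1) : Arch (LGrp G hG) where
  tri a ha := by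
    by_cases h1 : ∃ x, a x = x
    · left
      obtain ⟨x, hx⟩ := h1
      have h2 : proj G hG ⟨a, ha⟩ = 1 := by
        refine Subtype.ext (hfree _ (proj G hG ⟨a, ha⟩).2 ⟨(x : Ci), ?_⟩)
        rw [(proj_lift (hG := hG) ⟨a, ha⟩).coe]
        show ((a x : ℝ) : Ci) = _
        rw [hx]
      exact congrArg Subtype.val (eq_one_of_proj h2 hx)
    · right
      push Not at h1
      exact tri_real h1
  arch a ha hu b hb := by
    obtain ⟨n, hn⟩ := arch_real hu 0 (b 0)
    refine ⟨n, ?_⟩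
    have h0 : 0 < (b⁻¹ * a ^ n) 0 := by
      have h1 := (b⁻¹).strictMono hn
      have h2 : b⁻¹ (b 0) = 0 := b.symm_apply_apply 0
      rw [h2] at h1
      exact h1
    have hm : b⁻¹ * a ^ n ∈ LGrp G hG :=
      (LGrp G hG).mul_mem ((LGrp G hG).inv_mem hb) ((LGrp G hG).pow_mem ha n)
    have h3 : ∀ x, (b⁻¹ * a ^ n) x ≠ x := by
      intro x hx
      have h2 : proj G hG ⟨_, hm⟩ = 1 := by
        refine Subtype.ext (hfree _ (proj G hG ⟨_, hm⟩).2 ⟨(x : Ci), ?_⟩)
        rw [(proj_lift (hG := hG) ⟨_, hm⟩).coe]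
        show (((b⁻¹ * a ^ n) x : ℝ) : Ci) = _
        rw [hx]
      have h4 := congrArg Subtype.val (eq_one_of_proj h2 hx)
      have h5 : b⁻¹ * a ^ n = 1 := h4
      rw [h5] at h0
      exact lt_irrefl _ h0
    rcases tri_real h3 with h | h
    · exact h
    · exfalso
      have h4 := h ((b⁻¹ * a ^ n) 0)
      have h5 : (b⁻¹ * a ^ n)⁻¹ ((b⁻¹ * a ^ n) 0) = 0 :=
        (b⁻¹ * a ^ n).symm_apply_apply 0
      rw [h5] at h4
      exact lt_asymm h0 h4

theorem comm_of_free (hG : AnGrp G) (hfree : ∀ σ ∈ G, (∃ x : Ci, σ x = x) → σ = 1) (a b : G) :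
    a * b = b * a := by
  obtain ⟨F, rfl⟩ := proj_surjective (hG := hG) a
  obtain ⟨F', rfl⟩ := proj_surjective (hG := hG) b
  rw [← map_mul, ← map_mul]
  congr 1
  exact Subtype.ext ((arch_LGrp hfree).comm F.2 F'.2)

/-! ### An element with a fixed point -/

theorem iterate_conv {F : ℝ ≃o ℝ} {a b y : ℝ} (ha : F a = a) (hb : F b = b) (hy : y ∈ Set.Icc a b) :
    ∃ q, F q = q ∧ Tendsto (fun n : ℕ => F^[n] y) atTop (𝓝 q) := by
  have hin : ∀ n : ℕ, F^[n] y ∈ Set.Icc a b := by
    intro n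
    induction n with
    | zero => exact hy
    | succ n ih =>
      rw [Function.iterate_succ_apply']
      exact ⟨by rw [← ha]; exact F.monotone ih.1, by rw [← hb]; exact F.monotone ih.2⟩
  rcases le_total y (F y) with h | h
  · have hmono : Monotone fun n : ℕ => F^[n] y := F.monotone.monotone_iterate_of_le_map h
    have h1 := tendsto_atTop_ciSup hmono ⟨b, by rintro _ ⟨n, rfl⟩; exact (hin n).2⟩
    exact ⟨_, isFixedPt_of_tendsto_iterate h1 F.continuous.continuousAt, h1⟩
  · have hmono : Antitone fun n : ℕ => F^[n] y := F.monotone.antitone_iterate_of_map_le h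
    have h1 := tendsto_atTop_ciInf hmono ⟨a, by rintro _ ⟨n, rfl⟩; exact (hin n).1⟩
    exact ⟨_, isFixedPt_of_tendsto_iterate h1 F.continuous.continuousAt, h1⟩

theorem proj_iterate (F : LGrp G hG) (n : ℕ) (x : ℝ) :
    ((proj G hG F).1 ^ n) (x : Ci) = ((F.1^[n] x : ℝ) : Ci) := by
  induction n with
  | zero => rfl
  | succ n ih =>
    rw [pow_succ', Equiv.Perm.mul_apply, ih, (proj_lift F).coe, Function.iterate_succ_apply']

/-- Representatives in a fundamental interval. -/
theorem exists_rep (t : ℝ) (z : Ci) : ∃ x ∈ Set.Ico t (t + 1), (x : Ci) = z := by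
  obtain ⟨y, rfl⟩ := QuotientAddGroup.mk_surjective z
  refine ⟨y - ⌊y - t⌋, ⟨?_, ?_⟩, ?_⟩
  · have := Int.floor_le (y - t); linarith
  · have := Int.lt_floor_add_one (y - t); linarith
  · have := Circle_coe_add_int y (-⌊y - t⌋)
    push_cast at this
    exact this

theorem fix_period {F : LGrp G hG} {t : ℝ} (ht : F.1 t = t) : F.1 (t + 1) = t + 1 := by
  rw [(proj_lift F).per, ht]

/-- A point of `[t, t + 1)` whose class is fixed is fixed. -/
theorem fix_of_fix {F : LGrp G hG} {t x : ℝ} (ht : F.1 t = t) (hx : x ∈ Set.Ico t (t + 1))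
    (hf : (proj G hG F).1 (x : Ci) = (x : Ci)) : F.1 x = x := by
  rw [(proj_lift F).coe] at hf
  obtain ⟨k, hk⟩ := Circle_coe_eq hf
  have h1 : t ≤ F.1 x := by
    have := F.1.monotone hx.1
    rwa [ht] at this
  have h2 : F.1 x < t + 1 := by
    have := F.1.strictMono hx.2
    rwa [fix_period ht] at this
  have h3 : (k : ℝ) < 1 := by have := hx.2; linarith
  have h4 : (-1 : ℝ) < k := by have := hx.1; linarith
  have h5 : k < 1 := by exact_mod_cast h3
  have h6 : -1 < k := by exact_mod_cast h4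
  have h7 : k = 0 := by omega
  rw [h7] at hk
  push_cast at hk
  linarith

theorem local_attr {F : LGrp G hG} {t : ℝ} (ht : F.1 t = t) {W : Set Ci} (hW : IsOpen W)
    (hSW : ∀ z : Ci, (proj G hG F).1 z = z → z ∈ W) (z : Ci)
    (hz : (proj G hG F).1 z ≠ z) :
    ∃ V ∈ 𝓝 z, ∃ N : ℕ, ∀ n : ℕ, N ≤ n → ∀ y ∈ V, ((proj G hG F).1 ^ n) y ∈ W := by
  obtain ⟨y, hy, rfl⟩ := exists_rep t z
  have hFy : F.1 y ≠ y := by
    intro e
    apply hz
    rw [(proj_lift F).coe, e]
  obtain ⟨q, hq, hlim⟩ := iterate_conv ht (fix_period ht) ⟨hy.1, hy.2.le⟩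
  have hcoe : Continuous fun x : ℝ => (x : Ci) := continuous_quotient_mk'
  have hqW : (q : Ci) ∈ W := by
    apply hSW
    rw [(proj_lift F).coe, hq]
  obtain ⟨δ, hδ, hball⟩ := Metric.isOpen_iff.1 (hW.preimage hcoe) q hqW
  obtain ⟨N, hN⟩ := Filter.eventually_atTop.1 (hlim.eventually (Metric.ball_mem_nhds q hδ))
  -- the interval between `F⁻¹ y` and `F y`
  let u := F.1.symm y
  let v := F.1 y
  have hfu : F.1 u = y := F.1.apply_symm_apply y
  have huv : min u v < y ∧ y < max u v := by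
    rcases lt_or_gt_of_ne hFy with h | h
    · have h1 : y < u := by
        have := F.1.symm.strictMono h
        rwa [OrderIso.symm_apply_apply] at this
      exact ⟨(min_le_right _ _).trans_lt h, h1.trans_le (le_max_left _ _)⟩
    · have h1 : u < y := by
        have := F.1.symm.strictMono h
        rwa [OrderIso.symm_apply_apply] at this
      exact ⟨(min_le_left _ _).trans_lt h1, h.trans_le (le_max_right _ _)⟩
  refine ⟨(fun x : ℝ => (x : Ci)) '' Set.Ioo (min u v) (max u v), ?_, N + 1, ?_⟩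
  · exact (QuotientAddGroup.isOpenMap_coe.image_mem_nhds (Ioo_mem_nhds huv.1 huv.2))
  · intro n hn
    rintro _ ⟨x, hx, rfl⟩
    rw [proj_iterate]
    refine hball ?_
    obtain ⟨m, rfl⟩ : ∃ m, n = m + 1 := ⟨n - 1, by omega⟩
    have hm : N ≤ m := by omega
    have hx' : x ∈ Set.uIcc u v := ⟨hx.1.le, hx.2.le⟩
    have hmono : Monotone (F.1^[m + 1]) := F.1.monotone.iterate _
    have h1 := hmono.mapsTo_uIcc hx'
    have h2 : F.1^[m + 1] u = F.1^[m] y := by
      rw [Function.iterate_succ_apply, hfu]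
    have h3 : F.1^[m + 1] v = F.1^[m + 2] y := by
      rw [Function.iterate_succ_apply F.1 (m + 1) y]
    rw [h2, h3] at h1
    have h4 : (Metric.ball q δ).OrdConnected := by
      rw [Real.ball_eq_Ioo]
      exact Set.ordConnected_Ioo
    exact h4.uIcc_subset (hN m hm) (hN (m + 2) (by omega)) h1

theorem attr {F : LGrp G hG} {t : ℝ} (ht : F.1 t = t) {W : Set Ci} (hW : IsOpen W)
    (hSW : ∀ z : Ci, (proj G hG F).1 z = z → z ∈ W) :
    ∃ N : ℕ, ∀ n : ℕ, N ≤ n → ∀ y ∉ W, ((proj G hG F).1 ^ n) y ∈ W := by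
  have hK : IsCompact Wᶜ := hW.isClosed_compl.isCompact
  refine hK.induction_on (p := fun s => ∃ N : ℕ, ∀ n : ℕ, N ≤ n → ∀ y ∈ s,
    ((proj G hG F).1 ^ n) y ∈ W) ?_ ?_ ?_ ?_
  · exact ⟨0, fun n _ y hy => (hy : False).elim⟩
  · rintro s t hst ⟨N, hN⟩
    exact ⟨N, fun n hn y hy => hN n hn y (hst hy)⟩
  · rintro s t ⟨N, hN⟩ ⟨M, hM⟩
    refine ⟨max N M, fun n hn y hy => ?_⟩
    rcases hy with hy | hy
    · exact hN n ((le_max_left _ _).trans hn) y hy
    · exact hM n ((le_max_right _ _).trans hn) y hy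
  · intro z hz
    obtain ⟨V, hV, N, hN⟩ := local_attr ht hW hSW z fun e => hz (hSW z e)
    exact ⟨V, mem_nhdsWithin_of_mem_nhds hV, N, hN⟩

theorem fix_set_finite {F : LGrp G hG} {t : ℝ} (ht : F.1 t = t) (hF : F ≠ 1) :
    {z : Ci | (proj G hG F).1 z = z}.Finite := by
  refine ((fix_finite hF t (t + 1)).image fun x : ℝ => (x : Ci)).subset ?_
  intro z hz
  obtain ⟨y, hy, rfl⟩ := exists_rep t z
  exact ⟨y, ⟨⟨hy.1, hy.2.le⟩, fix_of_fix ht hy hz⟩, rfl⟩

/-- If no orbit is finite and some nontrivial element has a fixed point, there are free subgroups. -/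
theorem free_of_fix (hG : AnGrp G) (horb : ∀ z : Ci, (MulAction.orbit G z).Infinite) {g : G}
    (hg : g ≠ 1) {z : Ci} (hz : g.1 z = z) (r : ℕ) :
    ∃ a : Fin (r + 2) → G, Function.Injective (FreeGroup.lift a) := by
  obtain ⟨t, rfl⟩ := QuotientAddGroup.mk_surjective z
  obtain ⟨F, hF, ht⟩ := exists_lift_fix (hG := hG) g hz
  have hF1 : F ≠ 1 := by
    rintro rfl
    apply hg
    rw [← hF, map_one]
  have hFi : proj G hG F⁻¹ = g⁻¹ := by rw [map_inv, hF]
  have hti : F⁻¹.1 t = t := by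
    have h1 : F.1.symm (F.1 t) = t := F.1.symm_apply_apply t
    rw [ht] at h1
    exact h1
  refine free_of_dyn (S := {z : Ci | g.1 z = z}) ?_ ?_ ⟨(t : Ci), hz⟩ (fun a _ => horb a) g ?_ r
  · intro γ
    obtain ⟨F', hF'⟩ := proj_surjective (hG := hG) γ
    have h1 : Continuous fun x : ℝ => ((F'.1 x : ℝ) : Ci) :=
      continuous_quotient_mk'.comp (LGrp_cont F')
    have h2 : (fun x : ℝ => ((F'.1 x : ℝ) : Ci)) = (fun z : Ci => γ • z) ∘ fun x : ℝ => (x : Ci) := by
      funext x
      show _ = γ.1 (x : Ci)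
      rw [← hF', (proj_lift F').coe]
    rw [h2] at h1
    exact (isQuotientMap_quotient_mk' (X := ℝ)).continuous_iff.2 h1
  · have := fix_set_finite ht hF1
    rwa [hF] at this
  · intro W hW hSW
    obtain ⟨N, hN⟩ := attr ht hW (by rw [hF]; exact hSW)
    obtain ⟨M, hM⟩ := attr hti hW (by
      rw [hFi]
      intro z hz
      apply hSW
      show g.1 z = z
      have h1 : g.1 (g⁻¹.1 z) = z := g.1.apply_symm_apply z
      rwa [hz] at h1)
    rw [hF] at hN
    rw [hFi] at hM
    refine ⟨max 1 (max N M), le_max_left _ _, ?_⟩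
    intro n hn x hx
    obtain ⟨m, rfl | rfl⟩ := n.eq_nat_or_neg
    · rw [Nat.abs_cast] at hn
      have h1 : N ≤ m := by
        have : max 1 (max N M) ≤ m := by exact_mod_cast hn
        exact ((le_max_left _ _).trans (le_max_right _ _)).trans this
      have := hN m h1 x hx
      rw [zpow_natCast]
      exact this
    · rw [abs_neg, Nat.abs_cast] at hn
      have h1 : M ≤ m := by
        have : max 1 (max N M) ≤ m := by exact_mod_cast hn
        exact ((le_max_right _ _).trans (le_max_right _ _)).trans this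
      have := hM m h1 x hx
      rw [zpow_neg, ← inv_zpow, zpow_natCast]
      exact this

theorem no_law_of_fix (hG : AnGrp G) (horb : ∀ z : Ci, (MulAction.orbit G z).Infinite) {g : G}
    (hg : g ≠ 1) {z : Ci} (hz : g.1 z = z) {r : ℕ} {w : FreeGroup (Fin r)} (hw : w ≠ 1) :
    ∃ f : Fin r → G, FreeGroup.lift f w ≠ 1 := by
  obtain ⟨a, ha⟩ := free_of_fix hG horb hg hz r
  refine ⟨fun i => a (Fin.castAdd 2 i), fun e => hw ?_⟩
  have h1 : FreeGroup.lift a (FreeGroup.map (Fin.castAdd 2) w) = 1 := by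
    rw [← e]
    have : (FreeGroup.lift a).comp (FreeGroup.map (Fin.castAdd 2)) =
        FreeGroup.lift fun i => a (Fin.castAdd 2 i) := by
      ext1 i
      simp
    exact DFunLike.congr_fun this w
  have h2 : FreeGroup.map (Fin.castAdd 2) w = 1 := ha (by rw [h1, map_one])
  exact FreeGroup.map_injective (Fin.castAdd_injective r 2) (by rw [h2, map_one])

end Pool.Agent.H13.NLC
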