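import Pool.Agent.H13.NLC.Dyn

/-!
# Finite orbits: commutators fix the points of a finite orbit
-/

set_option autoImplicit false

namespace Pool.Agent.H13.NLC

open Filter Topology Pool.Agent.H81.NL

/-- A monotone injective self map of a finite piece of `P` fixes its end points. -/
theorem fix_ends {P : Set ℝ} {F : ℝ → ℝ} (hF : StrictMono F) (hP : ∀ x ∈ P, F x ∈ P) {a b : ℝ}
    (ha : a ∈ P) (hb : b ∈ P) (hab : a ≤ b) (h1 : a ≤ F a) (h2 : F b ≤ b)
    (hfin : (P ∩ Set.Icc a b).Finite) : F a = a ∧ F b = b := by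
  have hmaps : Set.MapsTo F (P ∩ Set.Icc a b) (P ∩ Set.Icc a b) := fun x hx =>
    ⟨hP x hx.1, h1.trans (hF.monotone hx.2.1), (hF.monotone hx.2.2).trans h2⟩
  have hsurj : Set.SurjOn F (P ∩ Set.Icc a b) (P ∩ Set.Icc a b) := by
    have h3 : F '' (P ∩ Set.Icc a b) = P ∩ Set.Icc a b :=
      Set.eq_of_subset_of_ncard_le hmaps.image_subset
        (by rw [Set.ncard_image_of_injective _ hF.injective]) hfin
    intro y hy
    rw [← h3] at hy
    exact hy
  constructor
  · obtain ⟨z, hz, hza⟩ := hsurj ⟨ha, le_refl a, hab⟩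
    have h3 := hF.monotone hz.2.1
    rw [hza] at h3
    exact le_antisymm h3 h1
  · obtain ⟨z, hz, hzb⟩ := hsurj ⟨hb, hab, le_refl b⟩
    have h3 := hF.monotone hz.2.2
    rw [hzb] at h3
    exact le_antisymm h2 h3

variable {G : Subgroup (Equiv.Perm Ci)} {hG : AnGrp G}

/-- A discrete periodic set invariant under all lifts. -/
structure Inv (hG : AnGrp G) (P : Set ℝ) : Prop where
  ne : P.Nonempty
  int : ∀ x ∈ P, ∀ k : ℤ, x + k ∈ P
  fin : ∀ a b : ℝ, (P ∩ Set.Icc a b).Finite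
  inv : ∀ F : LGrp G hG, ∀ x ∈ P, F.1 x ∈ P

variable {P : Set ℝ}

/-- The restriction. -/
def res (H : Inv hG P) (F : LGrp G hG) : P ≃o P where
  toFun x := ⟨F.1 x, H.inv F x x.2⟩
  invFun x := ⟨(F⁻¹).1 x, H.inv F⁻¹ x x.2⟩
  left_inv x := Subtype.ext (F.1.symm_apply_apply x)
  right_inv x := Subtype.ext (F.1.apply_symm_apply x)
  map_rel_iff' := F.1.map_rel_iff

def resHom (H : Inv hG P) : LGrp G hG →* (P ≃o P) where
  toFun := res H
  map_one' := rfl
  map_mul' _ _ := rfl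

theorem shift_below (H : Inv hG P) {y : ℝ} (hy : y ∈ P) (F : LGrp G hG) (h : y ≤ F.1 y) (x : ℝ) :
    ∃ y' ∈ P, y' ≤ x ∧ y' ≤ F.1 y' := by
  refine ⟨y + ((-⌈y - x⌉ : ℤ) : ℝ), H.int y hy _, ?_, ?_⟩
  · have := Int.le_ceil (y - x)
    push_cast
    linarith
  · rw [(proj_lift F).per_int]
    linarith

theorem shift_above (H : Inv hG P) {y : ℝ} (hy : y ∈ P) (F : LGrp G hG) (h : F.1 y ≤ y) (x : ℝ) :
    ∃ y' ∈ P, x ≤ y' ∧ F.1 y' ≤ y' := by
  refine ⟨y + (⌈x - y⌉ : ℤ), H.int y hy _, ?_, ?_⟩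
  · have := Int.le_ceil (x - y)
    linarith
  · rw [(proj_lift F).per_int]
    linarith

theorem res_tri (H : Inv hG P) (F : LGrp G hG) {x y : ℝ} (hx : x ∈ P) (hy : y ∈ P)
    (h1 : F.1 x ≤ x) (h2 : y ≤ F.1 y) : ∀ z ∈ P, F.1 z = z := by
  intro z hz
  rcases le_total z (F.1 z) with h | h
  · obtain ⟨x', hx', e1, e2⟩ := shift_above H hx F h1 z
    exact (fix_ends F.1.strictMono (H.inv F) hz hx' e1 h e2 (H.fin _ _)).1
  · obtain ⟨y', hy', e1, e2⟩ := shift_below H hy F h2 z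
    exact (fix_ends F.1.strictMono (H.inv F) hy' hz e1 e2 h (H.fin _ _)).2

/-- A lift which fixes one point of `P` fixes all. -/
theorem fix_all (H : Inv hG P) {F : LGrp G hG} {x : ℝ} (hx : x ∈ P) (h : F.1 x = x) :
    ∀ z ∈ P, F.1 z = z := res_tri H F hx hx h.le h.ge

theorem arch_res (H : Inv hG P) : Arch (resHom H).range where
  tri := by
    rintro _ ⟨F, rfl⟩
    by_cases h1 : ∃ x ∈ P, F.1 x ≤ x
    · by_cases h2 : ∃ y ∈ P, y ≤ F.1 y
      · left
        obtain ⟨x, hx, h1⟩ := h1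
        obtain ⟨y, hy, h2⟩ := h2
        refine RelIso.ext fun z => Subtype.ext ?_
        exact res_tri H F hx hy h1 h2 z z.2
      · right; right
        push Not at h2
        intro x
        have h3 := h2 (F⁻¹.1 x) (H.inv F⁻¹ x x.2)
        have h4 : F.1 (F⁻¹.1 x) = x := F.1.apply_symm_apply x
        rw [h4] at h3
        exact h3
    · right; left
      push Not at h1
      exact fun x => h1 x x.2
  arch := by
    rintro _ ⟨F, rfl⟩ hu _ ⟨F', rfl⟩
    obtain ⟨p, hp⟩ := H.ne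
    have hex : ∃ n : ℕ, F'.1 p < F.1^[n] p := by
      by_contra hcon
      push Not at hcon
      have hmemP : ∀ n : ℕ, F.1^[n] p ∈ P := by
        intro n
        induction n with
        | zero => exact hp
        | succ n ih =>
          rw [Function.iterate_succ_apply']
          exact H.inv F _ ih
      have hmono : StrictMono fun n : ℕ => F.1^[n] p := strictMono_nat_of_lt_succ fun n => by
        rw [Function.iterate_succ_apply']
        exact hu ⟨_, hmemP n⟩
      refine Set.infinite_of_injective_forall_mem hmono.injective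
        (s := P ∩ Set.Icc p (F'.1 p)) (fun n => ⟨hmemP n, ?_, hcon n⟩) (H.fin _ _)
      exact hmono.monotone (Nat.zero_le n)
    obtain ⟨n, hn⟩ := hex
    refine ⟨n, ?_⟩
    -- the element `F'⁻¹ F ^ n` moves `p` up
    have h1 : ((resHom H F')⁻¹ * (resHom H F) ^ n) = resHom H (F'⁻¹ * F ^ n) := by
      rw [map_mul, map_inv, map_pow]
    rw [h1]
    have hgp : p < (F'⁻¹ * F ^ n : LGrp G hG).1 p := by
      have h2 : (F ^ n : LGrp G hG).1 p = F.1^[n] p := by
        rw [Subgroup.coe_pow, iterate_pow]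
      show p < F'.1.symm ((F ^ n : LGrp G hG).1 p)
      rw [h2]
      have h3 := F'.1.symm.strictMono hn
      rwa [OrderIso.symm_apply_apply] at h3
    intro z
    by_contra hz
    have hz' : (F'⁻¹ * F ^ n : LGrp G hG).1 z ≤ z := not_lt.1 hz
    have := res_tri H (F'⁻¹ * F ^ n) z.2 hp hz' hgp.le p hp
    rw [this] at hgp
    exact lt_irrefl _ hgp

/-- Commutators of lifts fix the points of `P`. -/
theorem comm_fix (H : Inv hG P) (F F' : LGrp G hG) {x : ℝ} (hx : x ∈ P) :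
    (F * F' * F⁻¹ * F'⁻¹).1 x = x := by
  have hne : Nonempty P := H.ne.to_subtype
  have h1 := (arch_res H).comm (a := resHom H F) (b := resHom H F') ⟨F, rfl⟩ ⟨F', rfl⟩
  have h2 : resHom H (F * F' * F⁻¹ * F'⁻¹) = 1 := by
    rw [map_mul, map_mul, map_mul, map_inv, map_inv, h1]
    group
  have h3 := congrArg (fun e : P ≃o P => ((e ⟨x, hx⟩ : P) : ℝ)) h2
  exact h3

/-- A finite orbit gives an invariant discrete set. -/
theorem exists_inv (hG : AnGrp G) {z : Ci} (hz : (MulAction.orbit G z).Finite) :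
    ∃ P : Set ℝ, Inv hG P := by
  refine ⟨{x : ℝ | (x : Ci) ∈ MulAction.orbit G z}, ?_, ?_, ?_, ?_⟩
  · obtain ⟨x, rfl⟩ := QuotientAddGroup.mk_surjective z
    exact ⟨x, MulAction.mem_orbit_self _⟩
  · intro x hx k
    show ((x + k : ℝ) : Ci) ∈ MulAction.orbit G z
    rw [Circle_coe_add_int]
    exact hx
  · intro a b
    choose s hs1 hs2 using fun z : Ci => exists_rep 0 z
    have h1 : ((s '' MulAction.orbit G z) ×ˢ (Set.Icc ⌊a - 1⌋ ⌈b⌉ : Set ℤ)).Finite :=
      (hz.image s).prod (Set.finite_Icc _ _)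
    refine (h1.image fun p : ℝ × ℤ => p.1 + (p.2 : ℝ)).subset ?_
    rintro x ⟨hx, hxa, hxb⟩
    obtain ⟨k, hk⟩ := Circle_coe_eq (hs2 (x : Ci))
    refine ⟨(s (x : Ci), k), ⟨⟨(x : Ci), hx, rfl⟩, ?_, ?_⟩, ?_⟩
    · have h2 := (hs1 (x : Ci)).2
      have h3 : a - 1 ≤ (k : ℝ) := by linarith
      have h4 := Int.floor_le (a - 1)
      exact_mod_cast h4.trans h3
    · have h2 := (hs1 (x : Ci)).1
      have h3 : (k : ℝ) ≤ b := by linarith
      exact_mod_cast h3.trans (Int.le_ceil b)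
    · show s (x : Ci) + (k : ℝ) = x
      linarith
  · intro F x hx
    show ((F.1 x : ℝ) : Ci) ∈ MulAction.orbit G z
    rw [← (proj_lift F).coe]
    exact MulAction.mem_orbit_of_mem_orbit (proj G hG F) hx

end Pool.Agent.H13.NLC
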