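import Pool.Agent.H81.NL.Circle

/-!
# The group of lifts of a group of analytic circle diffeomorphisms
-/

set_option autoImplicit false

namespace Pool.Agent.H13.NLC

open Filter Topology Pool.Agent.H81.NL

/-- The circle. -/
abbrev Ci : Type := AddCircle (1 : ℝ)

/-- `F` is an analytic lift of `σ`. -/
structure IsLift (σ : Equiv.Perm Ci) (F : ℝ → ℝ) : Prop where
  an : AnalyticOnNhd ℝ F Set.univ
  per : ∀ x : ℝ, F (x + 1) = F x + 1
  pos : ∀ x : ℝ, 0 < deriv F x
  coe : ∀ x : ℝ, σ (x : Ci) = ((F x : ℝ) : Ci)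

/-- A group of analytic circle diffeomorphisms. -/
def AnGrp (G : Subgroup (Equiv.Perm Ci)) : Prop := ∀ σ ∈ G, ∃ F : ℝ → ℝ, IsLift σ F

theorem isLocConst_of_int {D : ℝ → ℝ} (hc : Continuous D) (hint : ∀ x, ∃ k : ℤ, D x = k) :
    ∃ k : ℤ, ∀ x, D x = k := by
  have h1 : IsLocallyConstant D := by
    rw [IsLocallyConstant.iff_eventually_eq]
    intro x
    have h2 : ∀ᶠ y in 𝓝 (0 : ℝ), D (x + y) - D x = 0 := by
      refine Circle_int_near (D := fun y => D (x + y) - D x) ?_ (by simp) ?_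
      · exact (by fun_prop : Continuous fun y => D (x + y) - D x).continuousAt
      · intro y
        obtain ⟨k, hk⟩ := hint (x + y)
        obtain ⟨l, hl⟩ := hint x
        exact ⟨k - l, by rw [hk, hl]; push_cast; rfl⟩
    have h3 : Tendsto (fun y : ℝ => y - x) (𝓝 x) (𝓝 0) := by
      have := (continuous_sub_right x).tendsto x
      rwa [sub_self] at this
    filter_upwards [h3.eventually h2] with y hy
    rw [add_sub_cancel] at hy
    linarith
  obtain ⟨k, hk⟩ := hint 0
  refine ⟨k, fun x => ?_⟩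
  rw [← hk]
  exact h1.apply_eq_of_preconnectedSpace x 0

namespace IsLift

variable {σ τ : Equiv.Perm Ci} {F F' : ℝ → ℝ}

theorem strictMono (h : IsLift σ F) : StrictMono F := strictMono_of_deriv_pos h.pos

theorem continuous (h : IsLift σ F) : Continuous F := h.an.continuous

theorem per_nat (h : IsLift σ F) (x : ℝ) (k : ℕ) : F (x + k) = F x + k := by
  induction k with
  | zero => simp
  | succ k ih =>
    push_cast
    rw [← add_assoc, h.per, ih]
    ring

theorem per_int (h : IsLift σ F) (x : ℝ) (k : ℤ) : F (x + k) = F x + k := by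
  obtain ⟨n, rfl | rfl⟩ := k.eq_nat_or_neg
  · exact_mod_cast h.per_nat x n
  · have h1 := h.per_nat (x + (-(n : ℤ) : ℤ)) n
    push_cast at h1 ⊢
    rw [neg_add_cancel_right] at h1
    linarith

theorem surjective (h : IsLift σ F) : Function.Surjective F := by
  refine h.continuous.surjective ?_ ?_
  · refine tendsto_atTop_mono (f := fun x : ℝ => x + (F 0 - 1)) ?_
      (tendsto_atTop_add_const_right _ _ tendsto_id)
    intro x
    have h1 := h.per_int 0 ⌊x⌋
    have h2 := h.strictMono.monotone (Int.floor_le x)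
    have h3 := Int.lt_floor_add_one x
    rw [zero_add] at h1
    linarith
  · refine tendsto_atBot_mono (f := fun x : ℝ => x + (F 0 + 1)) ?_
      (tendsto_atBot_add_const_right _ _ tendsto_id)
    intro x
    have h1 := h.per_int 0 ⌈x⌉
    have h2 := h.strictMono.monotone (Int.le_ceil x)
    have h3 := Int.ceil_lt_add_one x
    rw [zero_add] at h1
    linarith

theorem comp (h : IsLift σ F) (h' : IsLift τ F') : IsLift (σ * τ) (F ∘ F') where
  an := h.an.comp h'.an (Set.mapsTo_univ _ _)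
  per x := by simp only [Function.comp_apply]; rw [h'.per, h.per]
  pos x := by
    rw [deriv_comp x (h.an _ (Set.mem_univ _)).differentiableAt
      (h'.an _ (Set.mem_univ _)).differentiableAt]
    exact mul_pos (h.pos _) (h'.pos _)
  coe x := by
    rw [Equiv.Perm.mul_apply, h'.coe, h.coe]
    rfl

theorem add_int (h : IsLift σ F) (k : ℤ) : IsLift σ (fun x => F x + k) where
  an := h.an.add analyticOnNhd_const
  per x := by rw [h.per]; ring
  pos x := by rw [deriv_add_const]; exact h.pos x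
  coe x := by rw [Circle_coe_add_int, h.coe]

theorem one : IsLift 1 (fun x => x) where
  an := analyticOnNhd_id
  per x := rfl
  pos x := by rw [deriv_id'']; exact one_pos
  coe x := rfl

theorem eq_of_one (h : IsLift 1 F) : ∃ k : ℤ, ∀ x, F x = x + k := by
  have h1 : ∀ x, ∃ k : ℤ, F x - x = k := by
    intro x
    refine Circle_coe_eq ?_
    rw [← h.coe]
    rfl
  obtain ⟨k, hk⟩ := isLocConst_of_int (h.continuous.sub continuous_id) h1
  refine ⟨k, fun x => ?_⟩
  have := hk x
  simp only [Pi.sub_apply, id] at this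
  linarith

end IsLift

/-- The group of all lifts. -/
def LGrp (G : Subgroup (Equiv.Perm Ci)) (hG : AnGrp G) : Subgroup (ℝ ≃o ℝ) where
  carrier := {F | ∃ σ ∈ G, IsLift σ F}
  one_mem' := ⟨1, G.one_mem, IsLift.one⟩
  mul_mem' := by
    rintro F F' ⟨σ, hσ, h⟩ ⟨τ, hτ, h'⟩
    exact ⟨σ * τ, G.mul_mem hσ hτ, h.comp h'⟩
  inv_mem' := by
    rintro F ⟨σ, hσ, h⟩
    obtain ⟨F', h'⟩ := hG σ⁻¹ (G.inv_mem hσ)
    have h1 := h'.comp h
    rw [inv_mul_cancel] at h1
    obtain ⟨k, hk⟩ := h1.eq_of_one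
    refine ⟨σ⁻¹, G.inv_mem hσ, ?_⟩
    have h2 := h'.add_int (-k)
    have h3 : ((F⁻¹ : ℝ ≃o ℝ) : ℝ → ℝ) = fun x => F' x + ((-k : ℤ) : ℝ) := by
      funext y
      obtain ⟨x, rfl⟩ := F.surjective y
      have h4 := hk x
      simp only [Function.comp_apply] at h4
      show F.symm (F x) = _
      rw [F.symm_apply_apply, h4]
      push_cast
      ring
    show IsLift σ⁻¹ ((F⁻¹ : ℝ ≃o ℝ) : ℝ → ℝ)
    rw [h3]
    exact h2

variable {G : Subgroup (Equiv.Perm Ci)} {hG : AnGrp G}

theorem mem_LGrp {F : ℝ ≃o ℝ} : F ∈ LGrp G hG ↔ ∃ σ ∈ G, IsLift σ F := Iff.rfl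

theorem lift_unique {σ τ : Equiv.Perm Ci} {F : ℝ → ℝ} (h : IsLift σ F) (h' : IsLift τ F) :
    σ = τ := by
  refine Equiv.ext fun y => ?_
  obtain ⟨x, rfl⟩ := QuotientAddGroup.mk_surjective y
  exact (h.coe x).trans (h'.coe x).symm

/-- The projection to the circle. -/
noncomputable def proj (G : Subgroup (Equiv.Perm Ci)) (hG : AnGrp G) : LGrp G hG →* G where
  toFun F := ⟨F.2.choose, F.2.choose_spec.1⟩
  map_one' := by
    refine Subtype.ext ?_
    have h1 := (1 : LGrp G hG).2.choose_spec.2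
    exact lift_unique h1 IsLift.one
  map_mul' F F' := by
    refine Subtype.ext ?_
    have h1 := (F * F').2.choose_spec.2
    have h2 := F.2.choose_spec.2
    have h3 := F'.2.choose_spec.2
    exact lift_unique h1 (h2.comp h3)

theorem proj_lift (F : LGrp G hG) : IsLift (proj G hG F).1 (F.1 : ℝ → ℝ) :=
  F.2.choose_spec.2

theorem proj_surjective : Function.Surjective (proj G hG) := by
  intro σ
  obtain ⟨F, hF⟩ := hG σ.1 σ.2
  let F' : ℝ ≃o ℝ := hF.strictMono.orderIsoOfSurjective F hF.surjective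
  have h1 : IsLift σ.1 (F' : ℝ → ℝ) := hF
  refine ⟨⟨F', σ.1, σ.2, h1⟩, ?_⟩
  exact Subtype.ext (lift_unique (proj_lift _) h1)

theorem proj_eq_one {F : LGrp G hG} (h : proj G hG F = 1) : ∃ k : ℤ, ∀ x, F.1 x = x + k := by
  have h1 := proj_lift F
  rw [h] at h1
  exact h1.eq_of_one

theorem eq_one_of_proj {F : LGrp G hG} (h : proj G hG F = 1) {x : ℝ} (hx : F.1 x = x) : F = 1 := by
  obtain ⟨k, hk⟩ := proj_eq_one h
  have h1 : (k : ℝ) = 0 := by have := hk x; linarith
  refine Subtype.ext (RelIso.ext fun y => ?_)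
  show F.1 y = y
  rw [hk y, h1, add_zero]

/-- An element of `G` which fixes a point has a lift which fixes a preimage. -/
theorem exists_lift_fix (σ : G) {x : ℝ} (hx : σ.1 (x : Ci) = (x : Ci)) :
    ∃ F : LGrp G hG, proj G hG F = σ ∧ F.1 x = x := by
  obtain ⟨F, hF⟩ := proj_surjective (hG := hG) σ
  have h1 := proj_lift F
  rw [hF] at h1
  have h2 := h1.coe x
  rw [hx] at h2
  obtain ⟨k, hk⟩ := Circle_coe_eq h2
  have h3 := h1.add_int (-k)
  let F' : ℝ ≃o ℝ := h3.strictMono.orderIsoOfSurjective _ h3.surjective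
  have h4 : IsLift σ.1 (F' : ℝ → ℝ) := h3
  refine ⟨⟨F', σ.1, σ.2, h4⟩, Subtype.ext (lift_unique (proj_lift _) h4), ?_⟩
  show F.1 x + ((-k : ℤ) : ℝ) = x
  push_cast
  linarith

/-- The integer translations are lifts. -/
theorem exists_trans (k : ℤ) : ∃ T : LGrp G hG, proj G hG T = 1 ∧ ∀ x, T.1 x = x + k := by
  have h3 := IsLift.one.add_int k
  let F' : ℝ ≃o ℝ := h3.strictMono.orderIsoOfSurjective _ h3.surjective
  have h4 : IsLift 1 (F' : ℝ → ℝ) := h3
  exact ⟨⟨F', 1, G.one_mem, h4⟩, Subtype.ext (lift_unique (proj_lift _) h4), fun x => rfl⟩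

theorem LGrp_an (F : LGrp G hG) : AnalyticOnNhd ℝ (F.1 : ℝ → ℝ) Set.univ := (proj_lift F).an

theorem LGrp_cont (F : LGrp G hG) : Continuous (F.1 : ℝ → ℝ) := (proj_lift F).continuous

/-- The fixed points of a nontrivial lift are isolated. -/
theorem fix_isolated {F : LGrp G hG} (hF : F ≠ 1) (x : ℝ) : ∀ᶠ y in 𝓝[≠] x, F.1 y ≠ y := by
  have h1 : AnalyticOnNhd ℝ (fun y => F.1 y - y) Set.univ := (LGrp_an F).sub analyticOnNhd_id
  rcases (h1 x (Set.mem_univ _)).eventually_eq_zero_or_eventually_ne_zero with h | h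
  · exfalso
    apply hF
    have h2 := h1.eqOn_zero_of_preconnected_of_eventuallyEq_zero isPreconnected_univ
      (Set.mem_univ x) h
    refine Subtype.ext (RelIso.ext fun y => ?_)
    have := h2 (Set.mem_univ y)
    simp only [Pi.zero_apply] at this
    show F.1 y = y
    linarith
  · filter_upwards [h] with y hy e
    exact hy (by rw [e, sub_self])

theorem fix_finite {F : LGrp G hG} (hF : F ≠ 1) (a b : ℝ) :
    {x | x ∈ Set.Icc a b ∧ F.1 x = x}.Finite := by
  by_contra hinf
  have hinf' : Set.Infinite {x | x ∈ Set.Icc a b ∧ F.1 x = x} := hinf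
  obtain ⟨x, hx, hacc⟩ := hinf'.exists_accPt_of_subset_isCompact isCompact_Icc
    (fun y hy => hy.1)
  rw [accPt_iff_frequently] at hacc
  have h1 := fix_isolated hF x
  rw [eventually_nhdsWithin_iff] at h1
  obtain ⟨y, ⟨hy1, hy2⟩, hy3⟩ := (hacc.and_eventually h1).exists
  exact hy3 hy1 hy2.2

end Pool.Agent.H13.NLC
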