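import Pool.Agent.H13.NLC.Lift

/-!
# Orders of vanishing of commuting lifts
-/

set_option autoImplicit false

namespace Pool.Agent.H13.NLC

open Filter Topology Asymptotics

/-- `f x - x` vanishes to the order `m` at `q`, with leading coefficient `α`. -/
def Van (f : ℝ → ℝ) (q : ℝ) (m : ℕ) (α : ℝ) : Prop :=
  ∃ u : ℝ → ℝ, AnalyticAt ℝ u q ∧ u q = α ∧ ∀ᶠ x in 𝓝 q, f x - x = (x - q) ^ m * u x

theorem limA {u v A z : ℝ → ℝ} {q : ℝ} {m n : ℕ} (hm : 1 ≤ m) (hn : 2 ≤ n)
    (hu : AnalyticAt ℝ u q) (hv : ContinuousAt v q) (hA : ∀ᶠ x in 𝓝 q, A x = (x - q) ^ m * u x)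
    (hz : ∀ᶠ x in 𝓝 q, z x - x = (x - q) ^ n * v x) :
    Tendsto (fun x => (A (z x) - A x) / (x - q) ^ (m + n - 1)) (𝓝[≠] q) (𝓝 (m * u q * v q)) := by
  have hzq : z q = q := by
    have := hz.self_of_nhds
    rw [sub_self, zero_pow (by omega), zero_mul] at this
    linarith
  have hzc : ContinuousAt z q := by
    have h1 : ContinuousAt (fun x => x + (x - q) ^ n * v x) q :=
      continuousAt_id.add (((continuousAt_id.sub continuousAt_const).pow n).mul hv)
    refine h1.congr ?_
    filter_upwards [hz] with x hx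
    linarith
  have hzt : Tendsto z (𝓝 q) (𝓝 q) := by
    have := hzc.tendsto
    rwa [hzq] at this
  have hs := hu.hasStrictDerivAt
  have h2 : (fun x => u (z x) - u x) =O[𝓝 q] fun x => z x - x := by
    have h3 : Tendsto (fun x => (z x, x)) (𝓝 q) (𝓝 (q, q)) := hzt.prodMk_nhds tendsto_id
    exact (hs.hasStrictFDerivAt.isBigO_sub).comp_tendsto h3
  have hv1 : v =O[𝓝 q] fun _ => (1 : ℝ) := hv.tendsto.isBigO_one ℝ
  have h3 : (fun x => z x - x) =O[𝓝 q] fun x => (x - q) ^ n := by
    have h4 := (isBigO_refl (fun x : ℝ => (x - q) ^ n) (𝓝 q)).mul hv1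
    simp only [mul_one] at h4
    exact h4.congr' (hz.mono fun x hx => hx.symm) EventuallyEq.rfl
  have h5 : Tendsto (fun x => (u (z x) - u x) / (x - q) ^ (n - 1)) (𝓝[≠] q) (𝓝 0) := by
    have h6 : (fun x => (u (z x) - u x) / (x - q) ^ (n - 1)) =O[𝓝[≠] q] fun x => x - q := by
      have h7 : (fun x => u (z x) - u x) =O[𝓝[≠] q] fun x => (x - q) ^ n :=
        (h2.trans h3).mono nhdsWithin_le_nhds
      have h8 := h7.mul (isBigO_refl (fun x : ℝ => ((x - q) ^ (n - 1))⁻¹) (𝓝[≠] q))
      refine h8.congr' (Eventually.of_forall fun x => (div_eq_mul_inv _ _).symm) ?_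
      filter_upwards [self_mem_nhdsWithin] with x hx
      have hx' : x - q ≠ 0 := sub_ne_zero.2 hx
      have : (x - q) ^ n = (x - q) ^ (n - 1) * (x - q) := by
        rw [← pow_succ]; congr 1; omega
      rw [this]
      field_simp
    have h9 : Tendsto (fun x : ℝ => x - q) (𝓝[≠] q) (𝓝 0) := by
      have := (continuous_sub_right q).tendsto q
      rw [sub_self] at this
      exact this.mono_left nhdsWithin_le_nhds
    exact h6.trans_tendsto h9
  have hρ : Tendsto (fun x => 1 + (x - q) ^ (n - 1) * v x) (𝓝 q) (𝓝 1) := by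
    have h1 : ContinuousAt (fun x => 1 + (x - q) ^ (n - 1) * v x) q :=
      continuousAt_const.add (((continuousAt_id.sub continuousAt_const).pow (n - 1)).mul hv)
    have h2 := h1.tendsto
    simp only [sub_self] at h2
    rw [zero_pow (by omega), zero_mul, add_zero] at h2
    exact h2
  have h10 : Tendsto (fun x => v x * (∑ i ∈ Finset.range m, (1 + (x - q) ^ (n - 1) * v x) ^ i) *
      u (z x)) (𝓝 q) (𝓝 (v q * (∑ i ∈ Finset.range m, (1 : ℝ) ^ i) * u q)) := by
    refine (hv.tendsto.mul (tendsto_finsetSum _ fun i _ => hρ.pow i)).mul ?_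
    exact hu.continuousAt.tendsto.comp hzt
  have h11 : v q * (∑ i ∈ Finset.range m, (1 : ℝ) ^ i) * u q = m * u q * v q := by
    simp only [one_pow, Finset.sum_const, Finset.card_range, nsmul_eq_mul, mul_one]
    ring
  rw [h11] at h10
  have h12 := (h10.mono_left (nhdsWithin_le_nhds (s := {q}ᶜ))).add h5
  rw [add_zero] at h12
  refine h12.congr' ?_
  filter_upwards [self_mem_nhdsWithin, hA.filter_mono nhdsWithin_le_nhds,
    hz.filter_mono nhdsWithin_le_nhds, (hzt.eventually hA).filter_mono nhdsWithin_le_nhds]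
    with x hx hAx hzx hAz
  have hx' : x - q ≠ 0 := sub_ne_zero.2 hx
  rw [hAz, hAx]
  have e1 : (x - q) ^ n = (x - q) ^ (n - 1) * (x - q) := by
    rw [← pow_succ]; congr 1; omega
  have e2 : z x - q = (x - q) * (1 + (x - q) ^ (n - 1) * v x) := by
    have : z x - q = (x - q) + (z x - x) := by ring
    rw [this, hzx, e1]; ring
  have e3 := (Commute.all (z x - q) (x - q)).geom_sum₂_mul m
  have e4 : (∑ i ∈ Finset.range m, (z x - q) ^ i * (x - q) ^ (m - 1 - i)) =
      (x - q) ^ (m - 1) * ∑ i ∈ Finset.range m, (1 + (x - q) ^ (n - 1) * v x) ^ i := by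
    rw [Finset.mul_sum]
    refine Finset.sum_congr rfl fun i hi => ?_
    rw [Finset.mem_range] at hi
    rw [e2, mul_pow]
    have : (x - q) ^ (m - 1) = (x - q) ^ i * (x - q) ^ (m - 1 - i) := by
      rw [← pow_add]; congr 1; omega
    rw [this]; ring
  have e5 : (z x - q) ^ m = (x - q) ^ m + (x - q) ^ (m - 1) *
      (∑ i ∈ Finset.range m, (1 + (x - q) ^ (n - 1) * v x) ^ i) * ((x - q) ^ n * v x) := by
    rw [← hzx, ← e4]
    have : z x - x = (z x - q) - (x - q) := by ring
    rw [this, e3]; ring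
  rw [e5]
  have e6 : (x - q) ^ (m + n - 1) = (x - q) ^ (m - 1) * (x - q) ^ n := by
    rw [← pow_add]; congr 1; omega
  have e7 : (x - q) ^ m = (x - q) ^ (m - 1) * (x - q) := by
    rw [← pow_succ]; congr 1; omega
  rw [e6, e7, e1]
  field_simp
  ring

/-- Commuting germs have the same order. -/
theorem van_eq {f g : ℝ → ℝ} {q : ℝ} {m n : ℕ} {α β : ℝ} (hf : Van f q m α) (hg : Van g q n β)
    (hα : α ≠ 0) (hβ : β ≠ 0) (hm : 1 ≤ m) (hn : 1 ≤ n) (hfd : 0 < deriv f q)
    (hgd : 0 < deriv g q) (hc : ∀ᶠ x in 𝓝 q, f (g x) = g (f x)) : m = n := by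
  -- it is enough to treat `m < n`
  suffices H : ∀ {f g : ℝ → ℝ} {m n : ℕ} {α β : ℝ}, Van f q m α → Van g q n β → α ≠ 0 → β ≠ 0 →
      1 ≤ m → m < n → 0 < deriv f q → (∀ᶠ x in 𝓝 q, f (g x) = g (f x)) → False by
    rcases lt_trichotomy m n with h | h | h
    · exact (H hf hg hα hβ hm h hfd hc).elim
    · exact h
    · exact (H hg hf hβ hα hn h hgd (hc.mono fun x hx => hx.symm)).elim
  clear hf hg hα hβ hm hn hfd hgd hc m n α β f g
  intro f g m n α β hf hg hα hβ hm hmn hfd hc
  obtain ⟨u, hu, rfl, hfu⟩ := hf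
  obtain ⟨v, hv, rfl, hgv⟩ := hg
  have hL := limA (A := fun x => f x - x) (z := g) hm (by omega : 2 ≤ n) hu hv.continuousAt hfu hgv
  -- the identity
  have hid : ∀ᶠ x in 𝓝[≠] q, ((f (g x) - g x) - (f x - x)) / (x - q) ^ (m + n - 1) =
      ((g (f x) - f x) - (g x - x)) / (x - q) ^ (m + n - 1) := by
    filter_upwards [hc.filter_mono nhdsWithin_le_nhds] with x hx
    rw [hx]; ring
  have hL' := hL.congr' hid
  rcases Nat.lt_or_ge 1 m with h2 | h2
  · have hR := limA (A := fun x => g x - x) (z := f) (by omega : 1 ≤ n) (by omega : 2 ≤ m) hv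
      hu.continuousAt hgv hfu
    rw [add_comm n m] at hR
    have h3 := tendsto_nhds_unique hL' hR
    have h4 : ((m : ℝ) - n) * (u q * v q) = 0 := by linear_combination h3
    rcases mul_eq_zero.1 h4 with h5 | h5
    · have h6 : (m : ℝ) = n := by linarith
      have h7 : m = n := by exact_mod_cast h6
      omega
    · exact (mul_ne_zero hα hβ) h5
  · have hm1 : m = 1 := by omega
    subst hm1
    have hfq : f q = q := by
      have := hfu.self_of_nhds
      rw [sub_self, pow_one, zero_mul] at this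
      linarith
    have hfc : ContinuousAt f q := by
      have h1 : ContinuousAt (fun x => x + (x - q) ^ 1 * u x) q :=
        continuousAt_id.add (((continuousAt_id.sub continuousAt_const).pow 1).mul hu.continuousAt)
      refine h1.congr ?_
      filter_upwards [hfu] with x hx
      linarith
    have hft : Tendsto f (𝓝 q) (𝓝 q) := by
      have := hfc.tendsto
      rwa [hfq] at this
    have hR : Tendsto (fun x => ((g (f x) - f x) - (g x - x)) / (x - q) ^ (1 + n - 1)) (𝓝[≠] q)
        (𝓝 ((1 + u q) ^ n * v q - v q)) := by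
      have h1 : Tendsto (fun x => (1 + u x) ^ n * v (f x) - v x) (𝓝 q)
          (𝓝 ((1 + u q) ^ n * v q - v q)) := by
        refine Tendsto.sub (Tendsto.mul ?_ ?_) hv.continuousAt.tendsto
        · exact (tendsto_const_nhds.add hu.continuousAt.tendsto).pow n
        · exact hv.continuousAt.tendsto.comp hft
      refine (h1.mono_left nhdsWithin_le_nhds).congr' ?_
      filter_upwards [self_mem_nhdsWithin, hfu.filter_mono nhdsWithin_le_nhds,
        hgv.filter_mono nhdsWithin_le_nhds, (hft.eventually hgv).filter_mono nhdsWithin_le_nhds]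
        with x hx e1 e2 e3
      have hx' : x - q ≠ 0 := sub_ne_zero.2 hx
      have e4 : f x - q = (x - q) * (1 + u x) := by
        rw [pow_one] at e1; linear_combination e1
      rw [e3, e2, e4, mul_pow, Nat.add_sub_cancel_left]
      field_simp
    have h3 := tendsto_nhds_unique hL' hR
    have hd : deriv f q = 1 + u q := by
      have h5 : HasDerivAt (fun x => x + (x - q) ^ 1 * u x)
          (1 + (((1 : ℕ) : ℝ) * (q - q) ^ (1 - 1) * 1 * u q + (q - q) ^ 1 * deriv u q)) q :=
        (hasDerivAt_id q).add ((((hasDerivAt_id q).sub_const q).pow 1).mul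
          hu.differentiableAt.hasDerivAt)
      have h6 : f =ᶠ[𝓝 q] fun x => x + (x - q) ^ 1 * u x := by
        filter_upwards [hfu] with x hx
        linarith
      rw [h6.deriv_eq, h5.deriv]
      simp
    rw [hd] at hfd
    have h7 : (1 + u q) ^ n = 1 + u q := by
      have h8 : ((1 + u q) ^ n - 1 - u q) * v q = 0 := by
        push_cast at h3
        linear_combination -h3
      rcases mul_eq_zero.1 h8 with h9 | h9
      · linarith
      · exact (hβ h9).elim
    have h8 : (1 + u q) ^ (n - 1) = 1 := by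
      have h9 : (1 + u q) ^ n = (1 + u q) ^ (n - 1) * (1 + u q) := by
        rw [← pow_succ]; congr 1; omega
      rw [h9] at h7
      exact mul_right_cancel₀ hfd.ne' (by rw [h7, one_mul])
    have h9 : 1 + u q = 1 := (pow_eq_one_iff_of_nonneg hfd.le (by omega)).1 h8
    exact hα (by linarith)

end Pool.Agent.H13.NLC
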