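import Pool.Agent.H13.NLC.Ord

/-!
# Signs of commuting lifts
-/

set_option autoImplicit false

namespace Pool.Agent.H13.NLC

open Filter Topology Asymptotics

variable {G : Subgroup (Equiv.Perm Ci)} {hG : AnGrp G}

theorem exists_van {F : LGrp G hG} (hF : F ≠ 1) (q : ℝ) :
    ∃ (m : ℕ) (α : ℝ), α ≠ 0 ∧ Van F.1 q m α := by
  have h1 : AnalyticAt ℝ (fun x => F.1 x - x) q :=
    ((LGrp_an F).sub analyticOnNhd_id) q (Set.mem_univ _)
  have h2 : ¬ ∀ᶠ x in 𝓝 q, F.1 x - x = 0 := by
    intro h
    have h3 := fix_isolated hF q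
    have h4 := (h.filter_mono nhdsWithin_le_nhds).and h3
    obtain ⟨x, hx1, hx2⟩ := (h4 : ∀ᶠ x in 𝓝[≠] q, _).exists
    exact hx2 (by linarith)
  obtain ⟨m, u, hu, hu0, he⟩ := (h1.exists_eventuallyEq_pow_smul_nonzero_iff).2 h2
  exact ⟨m, u q, hu0, u, hu, rfl, by simpa using he⟩

theorem van_zero {f : ℝ → ℝ} {q : ℝ} {m : ℕ} {α : ℝ} (h : Van f q m α) (hα : α ≠ 0) :
    m = 0 ↔ f q ≠ q := by
  obtain ⟨u, hu, rfl, he⟩ := h
  have h1 := he.self_of_nhds
  rw [sub_self] at h1
  constructor
  · rintro rfl hfq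
    rw [hfq, sub_self, pow_zero, one_mul] at h1
    exact hα h1.symm
  · intro hfq
    by_contra hm
    rw [zero_pow hm, zero_mul] at h1
    exact hfq (by linarith)

theorem deriv_pos (F : LGrp G hG) (x : ℝ) : 0 < deriv F.1 x := (proj_lift F).pos x

/-- Commuting lifts with a common fixed point have the same fixed points. -/
theorem fix_of_comm {a b : LGrp G hG} (ha : a ≠ 1) (hab : a * b = b * a) {p : ℝ}
    (hap : a.1 p = p) (hbp : b.1 p = p) {q : ℝ} (hq : a.1 q = q) : b.1 q = q := by
  -- `b` maps the fixed points of `a` to fixed points of `a`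
  have hinv : ∀ c : LGrp G hG, a * c = c * a → ∀ x, a.1 x = x → a.1 (c.1 x) = c.1 x := by
    intro c hc x hx
    have h1 := congrArg (fun F : LGrp G hG => F.1 x) hc
    have h2 : a.1 (c.1 x) = c.1 (a.1 x) := h1
    rw [h2, hx]
  -- if `c x < x`... the iterates give infinitely many fixed points of `a` in an interval
  have key : ∀ c : LGrp G hG, a * c = c * a → c.1 p = p → ∀ x, a.1 x = x → c.1 x ≠ x →
      (c.1 x ∈ Set.uIcc p x) → False := by
    intro c hc hcp x hx hne hmem
    have hin : ∀ n : ℕ, c.1^[n] x ∈ Set.uIcc p x := by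
      intro n
      induction n with
      | zero => exact Set.right_mem_uIcc
      | succ n ih =>
        rw [Function.iterate_succ_apply']
        have h1 := c.1.monotone.mapsTo_uIcc ih
        rw [hcp] at h1
        exact Set.uIcc_subset_uIcc Set.left_mem_uIcc hmem h1
    have hfx : ∀ n : ℕ, a.1 (c.1^[n] x) = c.1^[n] x := by
      intro n
      induction n with
      | zero => exact hx
      | succ n ih =>
        rw [Function.iterate_succ_apply']
        exact hinv c hc _ ih
    have hinj : Function.Injective fun n : ℕ => c.1^[n] x := by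
      rcases lt_or_gt_of_ne hne with h | h
      · exact (strictAnti_nat_of_succ_lt fun n => by
          rw [Function.iterate_succ_apply]
          exact (c.1.strictMono.iterate n) h).injective
      · exact (strictMono_nat_of_lt_succ fun n => by
          rw [Function.iterate_succ_apply]
          exact (c.1.strictMono.iterate n) h).injective
    refine Set.infinite_of_injective_forall_mem hinj
      (s := {y | y ∈ Set.uIcc p x ∧ a.1 y = y}) (fun n => ⟨hin n, hfx n⟩) ?_
    exact fix_finite ha _ _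
  by_contra hne
  have hb' : a * b⁻¹ = b⁻¹ * a := by
    have h0 : b⁻¹ * (a * b) * b⁻¹ = b⁻¹ * (b * a) * b⁻¹ := by rw [hab]
    have e1 : b⁻¹ * (a * b) * b⁻¹ = b⁻¹ * a := by group
    have e2 : b⁻¹ * (b * a) * b⁻¹ = a * b⁻¹ := by group
    rw [e1, e2] at h0
    exact h0.symm
  have hbi : ∀ y, (b⁻¹ : LGrp G hG).1 y = b.1.symm y := fun y => rfl
  have hbp' : (b⁻¹ : LGrp G hG).1 p = p := by
    rw [hbi]
    have := b.1.symm_apply_apply p
    rwa [hbp] at this
  have hne' : (b⁻¹ : LGrp G hG).1 q ≠ q := by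
    rw [hbi]
    intro e
    apply hne
    have := b.1.apply_symm_apply q
    rwa [e] at this
  -- one of `b q`, `b⁻¹ q` lies between `p` and `q`
  rcases le_total p q with hpq | hpq
  · rcases lt_or_gt_of_ne hne with h | h
    · refine key b hab hbp q hq hne ?_
      rw [Set.uIcc_of_le hpq]
      refine ⟨?_, h.le⟩
      have := b.1.monotone hpq
      rwa [hbp] at this
    · refine key b⁻¹ hb' hbp' q hq hne' ?_
      rw [Set.uIcc_of_le hpq, hbi]
      constructor
      · have := b.1.symm.monotone hpq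
        rw [← hbi p, hbp'] at this
        exact this
      · have := b.1.symm.monotone (le_of_lt h)
        rwa [OrderIso.symm_apply_apply] at this
  · rcases lt_or_gt_of_ne hne with h | h
    · refine key b⁻¹ hb' hbp' q hq hne' ?_
      rw [Set.uIcc_of_ge hpq, hbi]
      constructor
      · have := b.1.symm.monotone (le_of_lt h)
        rwa [OrderIso.symm_apply_apply] at this
      · have := b.1.symm.monotone hpq
        rw [← hbi p, hbp'] at this
        exact this
    · refine key b hab hbp q hq hne ?_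
      rw [Set.uIcc_of_ge hpq]
      refine ⟨le_of_lt h, ?_⟩
      have := b.1.monotone hpq
      rwa [hbp] at this

/-- Commuting lifts with a common fixed point have the same order at every point. -/
theorem order_eq {a b : LGrp G hG} (ha : a ≠ 1) (hb : b ≠ 1) (hab : a * b = b * a) {p : ℝ}
    (hap : a.1 p = p) (hbp : b.1 p = p) {q : ℝ} {m n : ℕ} {α β : ℝ} (hα : α ≠ 0) (hβ : β ≠ 0)
    (h1 : Van a.1 q m α) (h2 : Van b.1 q n β) : m = n := by
  by_cases hm : m = 0
  · have h3 := (van_zero h1 hα).1 hm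
    by_contra hne
    have h4 : n ≠ 0 := fun e => hne (by rw [hm, e])
    have h5 : b.1 q = q := by
      by_contra h6
      exact h4 ((van_zero h2 hβ).2 h6)
    exact h3 (fix_of_comm hb hab.symm hbp hap h5)
  · have h3 : a.1 q = q := by
      by_contra h6
      exact hm ((van_zero h1 hα).2 h6)
    have h5 : b.1 q = q := fix_of_comm ha hab hap hbp h3
    have hn : n ≠ 0 := fun e => (van_zero h2 hβ).1 e h5
    refine van_eq h1 h2 hα hβ (by omega) (by omega) (deriv_pos a q) (deriv_pos b q) ?_
    refine Eventually.of_forall fun x => ?_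
    exact congrArg (fun F : LGrp G hG => F.1 x) hab

/-- Sign constancy. -/
theorem sign_const {a b : LGrp G hG} (ha : a ≠ 1) (hb : b ≠ 1) (hab : a * b = b * a) {p : ℝ}
    (hap : a.1 p = p) (hbp : b.1 p = p) :
    (∀ x, 0 ≤ (a.1 x - x) * (b.1 x - x)) ∨ (∀ x, (a.1 x - x) * (b.1 x - x) ≤ 0) := by
  let D : ℝ → ℝ := fun x => (a.1 x - x) * (b.1 x - x)
  let P : Set ℝ := {x | ∀ᶠ y in 𝓝[≠] x, 0 < D y}
  let M : Set ℝ := {x | ∀ᶠ y in 𝓝[≠] x, D y < 0}
  have hPopen : IsOpen P := by
    rw [isOpen_iff_mem_nhds]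
    intro x hx
    have h1 : ∀ᶠ y in 𝓝[≠] x, 0 < D y := hx
    rw [← eventually_eventually_nhdsWithin] at h1
    have h2 : ∀ᶠ y in 𝓝 x, y ≠ x → y ∈ P := by
      rw [eventually_nhdsWithin_iff] at h1
      filter_upwards [h1] with y hy hyx
      have h3 := hy hyx
      have h4 : 𝓝[{x}ᶜ] y = 𝓝 y := isOpen_compl_singleton.nhdsWithin_eq hyx
      rw [h4] at h3
      exact h3.filter_mono nhdsWithin_le_nhds
    filter_upwards [h2] with y hy
    by_cases hyx : y = x
    · rw [hyx]; exact hx
    · exact hy hyx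
  have hMopen : IsOpen M := by
    rw [isOpen_iff_mem_nhds]
    intro x hx
    have h1 : ∀ᶠ y in 𝓝[≠] x, D y < 0 := hx
    rw [← eventually_eventually_nhdsWithin] at h1
    have h2 : ∀ᶠ y in 𝓝 x, y ≠ x → y ∈ M := by
      rw [eventually_nhdsWithin_iff] at h1
      filter_upwards [h1] with y hy hyx
      have h3 := hy hyx
      have h4 : 𝓝[{x}ᶜ] y = 𝓝 y := isOpen_compl_singleton.nhdsWithin_eq hyx
      rw [h4] at h3
      exact h3.filter_mono nhdsWithin_le_nhds
    filter_upwards [h2] with y hy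
    by_cases hyx : y = x
    · rw [hyx]; exact hx
    · exact hy hyx
  have hcov : ∀ x, x ∈ P ∨ x ∈ M := by
    intro x
    obtain ⟨m, α, hα, u, hu, rfl, hau⟩ := exists_van ha x
    obtain ⟨n, β, hβ, v, hv, rfl, hbv⟩ := exists_van hb x
    have hmn : m = n := order_eq ha hb hab hap hbp hα hβ ⟨u, hu, rfl, hau⟩ ⟨v, hv, rfl, hbv⟩
    subst hmn
    have h1 : ∀ᶠ y in 𝓝[≠] x, D y = ((y - x) ^ m) ^ 2 * (u y * v y) := by
      filter_upwards [hau.filter_mono nhdsWithin_le_nhds, hbv.filter_mono nhdsWithin_le_nhds]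
        with y e1 e2
      show (a.1 y - y) * (b.1 y - y) = _
      rw [e1, e2]; ring
    have h2 : ∀ᶠ y in 𝓝[≠] x, 0 < ((y - x) ^ m) ^ 2 := by
      filter_upwards [self_mem_nhdsWithin] with y hy
      have : (y - x) ^ m ≠ 0 := pow_ne_zero _ (sub_ne_zero.2 hy)
      positivity
    have hc : Tendsto (fun y => u y * v y) (𝓝[≠] x) (𝓝 (u x * v x)) :=
      (hu.continuousAt.tendsto.mul hv.continuousAt.tendsto).mono_left nhdsWithin_le_nhds
    rcases lt_or_gt_of_ne (mul_ne_zero hα hβ) with h | h
    · right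
      have h3 := hc.eventually (gt_mem_nhds h)
      show ∀ᶠ y in 𝓝[≠] x, D y < 0
      filter_upwards [h1, h2, h3] with y e1 e2 e3
      rw [e1]
      exact mul_neg_of_pos_of_neg e2 e3
    · left
      have h3 := hc.eventually (lt_mem_nhds h)
      show ∀ᶠ y in 𝓝[≠] x, 0 < D y
      filter_upwards [h1, h2, h3] with y e1 e2 e3
      rw [e1]
      exact mul_pos e2 e3
  have hdisj : ∀ x, x ∈ P → x ∈ M → False := by
    intro x h1 h2
    obtain ⟨y, e1, e2⟩ := (Eventually.and h1 h2 : ∀ᶠ y in 𝓝[≠] x, _).exists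
    exact lt_asymm e1 e2
  have hDc : Continuous D :=
    ((LGrp_cont a).sub continuous_id).mul ((LGrp_cont b).sub continuous_id)
  have hclopen : IsClopen P := by
    refine ⟨?_, hPopen⟩
    have : P = Mᶜ := by
      ext x
      constructor
      · exact fun h1 h2 => hdisj x h1 h2
      · exact fun h1 => (hcov x).resolve_right h1
    rw [this]
    exact hMopen.isClosed_compl
  rcases isClopen_iff.1 hclopen with h | h
  · right
    intro x
    have hx : x ∈ M := (hcov x).resolve_left (by rw [h]; exact Set.notMem_empty x)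
    have h3 : Tendsto D (𝓝[≠] x) (𝓝 (D x)) := hDc.continuousAt.tendsto.mono_left nhdsWithin_le_nhds
    exact le_of_tendsto h3 (Eventually.mono hx fun y hy => le_of_lt hy)
  · left
    intro x
    have hx : x ∈ P := by rw [h]; exact Set.mem_univ x
    have h3 : Tendsto D (𝓝[≠] x) (𝓝 (D x)) := hDc.continuousAt.tendsto.mono_left nhdsWithin_le_nhds
    exact ge_of_tendsto h3 (Eventually.mono hx fun y hy => le_of_lt hy)

end Pool.Agent.H13.NLC
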