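import Pool.Agent.H13.NLC.FinOrb
import Pool.Agent.H13.NLC.Cent
import Pool.Agent.H81.NL.Top

/-!
# A group of analytic circle diffeomorphisms which satisfies a law is metabelian
-/

set_option autoImplicit false

namespace Pool.Agent.H13.NLC

open Filter Topology Pool.Agent.H81.NL
open scoped commutatorElement

variable {G : Subgroup (Equiv.Perm Ci)} {hG : AnGrp G}

theorem derived_two_of_comm {L : Type*} [Group L]
    (h : ∀ a b : L, a ∈ commutator L → b ∈ commutator L → a * b = b * a) :
    derivedSeries L 2 = ⊥ := by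
  rw [derivedSeries_succ, derivedSeries_one, eq_bot_iff, Subgroup.commutator_le]
  intro a ha b hb
  rw [Subgroup.mem_bot, commutatorElement_def, h a b ha hb]
  group

theorem comm_of_derived_two {L : Type*} [Group L] (h : derivedSeries L 2 = ⊥) {a b : L}
    (ha : a ∈ commutator L) (hb : b ∈ commutator L) : a * b = b * a := by
  have h1 : ⁅a, b⁆ ∈ derivedSeries L 2 := by
    rw [derivedSeries_succ, derivedSeries_one]
    exact Subgroup.commutator_mem_commutator ha hb
  rw [h, Subgroup.mem_bot] at h1
  exact commutatorElement_eq_one_iff_mul_comm.1 h1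

/-- The stabilizer of a real point in the group of lifts. -/
def stab (hG : AnGrp G) (p : ℝ) : Subgroup (LGrp G hG) where
  carrier := {F | F.1 p = p}
  one_mem' := rfl
  mul_mem' := by
    intro F F' h h'
    show F.1 (F'.1 p) = p
    rw [show F'.1 p = p from h', show F.1 p = p from h]
  inv_mem' := by
    intro F h
    show F.1.symm p = p
    have h1 := F.1.symm_apply_apply p
    rwa [show F.1 p = p from h] at h1

theorem mem_stab {p : ℝ} {F : LGrp G hG} : F ∈ stab hG p ↔ F.1 p = p := Iff.rfl

/-- The germs at `p`. -/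
noncomputable def gm (p : ℝ) (F : stab hG p) : ℝ → ℝ := fun x => F.1.1 (p + x) - p

theorem germAct_stab (p : ℝ) : GermAct (stab hG p) (gm p) where
  an F := by
    have h1 : AnalyticAt ℝ (fun x : ℝ => p + x) 0 := analyticAt_const.add analyticAt_id
    have h2 : AnalyticAt ℝ (F.1.1 : ℝ → ℝ) (p + 0) := LGrp_an F.1 _ (Set.mem_univ _)
    exact (AnalyticAt.fun_comp (f := fun x : ℝ => p + x) h2 h1).sub analyticAt_const
  zero F := by
    show F.1.1 (p + 0) - p = 0
    rw [add_zero, show F.1.1 p = p from F.2, sub_self]
  pos F := by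
    have h1 : deriv (gm p F) 0 = deriv F.1.1 p := by
      show deriv (fun x : ℝ => F.1.1 (p + x) - p) 0 = _
      rw [deriv_sub_const, deriv_comp_const_add, add_zero]
    rw [h1]
    exact deriv_pos F.1 p
  mul F F' := by
    refine Eventually.of_forall fun x => ?_
    show F.1.1 (F'.1.1 (p + x)) - p = F.1.1 (p + (F'.1.1 (p + x) - p)) - p
    rw [add_sub_cancel]
  faithful F hF := by
    by_contra hne
    have hne' : F.1 ≠ 1 := fun e => hne (Subtype.ext e)
    have h1 := fix_isolated hne' p
    have h2 : Tendsto (fun y : ℝ => y - p) (𝓝 p) (𝓝 0) := by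
      have := (continuous_sub_right p).tendsto p
      rwa [sub_self] at this
    have h3 := (h2.eventually hF).filter_mono (nhdsWithin_le_nhds (s := {p}ᶜ))
    obtain ⟨y, e1, e2⟩ := (h1.and h3).exists
    apply e1
    have e3 : F.1.1 (p + (y - p)) - p = y - p := e2
    rw [add_sub_cancel] at e3
    linarith

/-- The finite orbit case. -/
theorem metab_of_finite (hG : AnGrp G) {z : Ci} (hz : (MulAction.orbit G z).Finite) {r : ℕ}
    {w : FreeGroup (Fin r)} (hw : w ≠ 1) (hlaw : ∀ f : Fin r → G, FreeGroup.lift f w = 1) :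
    derivedSeries G 2 = ⊥ := by
  obtain ⟨P, H⟩ := exists_inv hG hz
  obtain ⟨p, hp⟩ := H.ne
  have hN : (stab hG p).Normal := ⟨fun F hF g => by
    show g.1 (F.1 (g.1.symm p)) = p
    have h1 : g.1.symm p ∈ P := H.inv g⁻¹ p hp
    rw [fix_all H hp hF _ h1]
    exact g.1.apply_symm_apply p⟩
  -- commutators fix `p`
  have hcom : commutator (LGrp G hG) ≤ stab hG p := by
    rw [commutator_def, Subgroup.commutator_le]
    intro a _ b _
    exact comm_fix H a b hp
  -- the stabilizer satisfies the law
  have hlaw' : ∀ f : Fin r → stab hG p, FreeGroup.lift f w = 1 := by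
    intro f
    have e1 : (stab hG p).subtype.comp (FreeGroup.lift f) =
        FreeGroup.lift fun i => (f i : LGrp G hG) := by
      ext1 i
      simp
    have e2 : (proj G hG).comp (FreeGroup.lift fun i => (f i : LGrp G hG)) =
        FreeGroup.lift fun i => proj G hG (f i) := by
      ext1 i
      simp
    have h1 : proj G hG ((FreeGroup.lift f w : stab hG p) : LGrp G hG) = 1 := by
      have h2 := DFunLike.congr_fun e2 w
      rw [hlaw] at h2
      have h3 := DFunLike.congr_fun e1 w
      have h4 : ((FreeGroup.lift f w : stab hG p) : LGrp G hG) =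
        (FreeGroup.lift fun i => (f i : LGrp G hG)) w := h3
      rw [h4]
      exact h2
    exact Subtype.ext (eq_one_of_proj h1 (FreeGroup.lift f w).2)
  have hmet : derivedSeries (stab hG p) 2 = ⊥ := by
    by_contra hne
    obtain ⟨f, hf⟩ := germ_noLaw (germAct_stab p) hne hw
    exact hf (hlaw' f)
  -- it is enough to show that commutators in the group of lifts commute
  suffices hL : derivedSeries (LGrp G hG) 2 = ⊥ by
    rw [← map_derivedSeries_eq (proj_surjective (hG := hG)) 2, hL, Subgroup.map_bot]
  let A : Subgroup (LGrp G hG) := ⁅stab hG p, stab hG p⁆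
  have hAN : A.Normal := Subgroup.commutator_normal _ _
  have hAle : A ≤ stab hG p := Subgroup.commutator_le_left _ _
  have hAmem : ∀ a ∈ A, ∃ a' ∈ commutator (stab hG p), (a' : LGrp G hG) = a := by
    intro a ha
    have h1 : A = (commutator (stab hG p)).map (stab hG p).subtype :=
      (Subgroup.map_subtype_commutator (stab hG p)).symm
    rw [h1] at ha
    obtain ⟨a', ha', rfl⟩ := ha
    exact ⟨a', ha', rfl⟩
  have hAcomm : ∀ a ∈ A, ∀ b ∈ A, a * b = b * a := by
    intro a ha b hb
    obtain ⟨a', ha', rfl⟩ := hAmem a ha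
    obtain ⟨b', hb', rfl⟩ := hAmem b hb
    exact congrArg Subtype.val (comm_of_derived_two hmet ha' hb')
  by_cases hA : ∀ t ∈ A, t = 1
  · refine derived_two_of_comm fun a b ha hb => ?_
    have h1 := hA ⁅a, b⁆ (Subgroup.commutator_mem_commutator (hcom ha) (hcom hb))
    exact commutatorElement_eq_one_iff_mul_comm.1 h1
  · push Not at hA
    obtain ⟨t, htA, ht1⟩ := hA
    have htp : t.1 p = p := hAle htA
    obtain ⟨m, α, hα, hvan⟩ := exists_van ht1 p
    have hm2 : 2 ≤ m := by
      have hm0 : m ≠ 0 := fun e => (van_zero hvan hα).1 e htp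
      rcases Nat.lt_or_ge m 2 with h | h
      · exfalso
        have hm1 : m = 1 := by omega
        subst hm1
        obtain ⟨t', ht', rfl⟩ := hAmem t htA
        have hd := (germAct_stab (hG := hG) p).deriv_comm ⟨t', ht'⟩
        have h1 : deriv (gm p t') 0 = deriv t'.1.1 p := by
          show deriv (fun x : ℝ => t'.1.1 (p + x) - p) 0 = _
          rw [deriv_sub_const, deriv_comp_const_add, add_zero]
        rw [show deriv (gm p t') 0 = 1 from hd] at h1
        obtain ⟨u, hu, rfl, he⟩ := hvan
        have h5 : HasDerivAt (fun x => x + (x - p) ^ 1 * u x)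
            (1 + (((1 : ℕ) : ℝ) * (p - p) ^ (1 - 1) * 1 * u p + (p - p) ^ 1 * deriv u p)) p :=
          (hasDerivAt_id p).add ((((hasDerivAt_id p).sub_const p).pow 1).mul
            hu.differentiableAt.hasDerivAt)
        have h6 : t'.1.1 =ᶠ[𝓝 p] fun x => x + (x - p) ^ 1 * u x := by
          filter_upwards [he] with x hx
          linarith
        rw [h6.deriv_eq, h5.deriv] at h1
        simp at h1
        exact hα h1
      · exact h
    have hPara : Para t p m := ⟨ht1, htp, hm2, α, hα, hvan⟩
    have hex : ∀ a : A, ∃ α : ℝ, LA m p a.1.1 α ∧ (α = 0 → a.1 = 1) := fun a =>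
      hPara.exists_la (hAle a.2) (hAcomm t htA a a.2)
    choose ℓ hℓ hℓ0 using hex
    have hℓnz : ∀ a : A, a.1 ≠ 1 → ℓ a ≠ 0 := fun a h e => h (hℓ0 a e)
    have hcent : ∀ (g h : LGrp G hG) (a : A),
        (g * h * g⁻¹ * h⁻¹) * a = a * (g * h * g⁻¹ * h⁻¹) := by
      refine centralize (ℓ := ℓ) ?_ (fun a h => Subtype.ext (hℓ0 a h)) ?_
      · intro a b
        have h1 : LA m p (fun x => a.1.1 (b.1.1 x)) (ℓ a + ℓ b) :=
          LA.comp hm2 (hℓ a) (hℓ b) (hAle b.2) b.1.1.injective
        exact (hℓ (a * b)).unique h1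
      · intro g a b hab
        have ha1 : a.1 ≠ 1 := by
          intro e
          have h1 : ℓ a = 0 := by
            refine (hℓ a).unique ?_
            rw [e]
            exact la_one m p
          rw [h1, zero_mul] at hab
          exact lt_irrefl _ hab
        have hb1 : b.1 ≠ 1 := by
          intro e
          have h1 : ℓ b = 0 := by
            refine (hℓ b).unique ?_
            rw [e]
            exact la_one m p
          rw [h1, mul_zero] at hab
          exact lt_irrefl _ hab
        -- the product of the two displacement functions near `p`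
        have hlim : ∀ a b : A, Tendsto (fun x => ((a.1.1 x - x) * (b.1.1 x - x)) /
            ((x - p) ^ m) ^ 2) (𝓝[≠] p) (𝓝 (ℓ a * ℓ b)) := by
          intro a b
          have h1 : Tendsto (fun x => (a.1.1 x - x) / (x - p) ^ m) (𝓝[≠] p) (𝓝 (ℓ a)) := hℓ a
          have h2 : Tendsto (fun x => (b.1.1 x - x) / (x - p) ^ m) (𝓝[≠] p) (𝓝 (ℓ b)) := hℓ b
          refine (h1.mul h2).congr' (Eventually.of_forall fun x => ?_)
          show (a.1.1 x - x) / (x - p) ^ m * ((b.1.1 x - x) / (x - p) ^ m) =
            ((a.1.1 x - x) * (b.1.1 x - x)) / ((x - p) ^ m) ^ 2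
          rw [div_mul_div_comm, sq ((x - p) ^ m)]
        have hpos : ∀ x, 0 ≤ (a.1.1 x - x) * (b.1.1 x - x) := by
          rcases sign_const ha1 hb1 (hAcomm a a.2 b b.2) (hAle a.2) (hAle b.2) with h | h
          · exact h
          · exfalso
            have h1 : ℓ a * ℓ b ≤ 0 := le_of_tendsto (hlim a b)
              (Eventually.of_forall fun x => div_nonpos_of_nonpos_of_nonneg (h x) (sq_nonneg _))
            linarith
        let a' : A := ⟨g * a * g⁻¹, hAN.conj_mem a a.2 g⟩
        let b' : A := ⟨g * b * g⁻¹, hAN.conj_mem b b.2 g⟩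
        have hpos' : ∀ x, 0 ≤ (a'.1.1 x - x) * (b'.1.1 x - x) := by
          intro x
          obtain ⟨y, rfl⟩ := g.1.surjective x
          have e1 : a'.1.1 (g.1 y) = g.1 (a.1.1 y) := by
            show g.1 (a.1.1 (g.1.symm (g.1 y))) = _
            rw [g.1.symm_apply_apply]
          have e2 : b'.1.1 (g.1 y) = g.1 (b.1.1 y) := by
            show g.1 (b.1.1 (g.1.symm (g.1 y))) = _
            rw [g.1.symm_apply_apply]
          rw [e1, e2]
          have h1 := hpos y
          rcases le_total y (a.1.1 y) with h2 | h2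
          · rcases h2.eq_or_lt with h3 | h3
            · rw [← h3]; simp
            · have h4 : 0 ≤ b.1.1 y - y := nonneg_of_mul_nonneg_right h1 (by linarith)
              have h5 := g.1.monotone h2
              have h6 := g.1.monotone (show y ≤ b.1.1 y by linarith)
              exact mul_nonneg (by linarith) (by linarith)
          · rcases h2.eq_or_lt with h3 | h3
            · rw [h3]; simp
            · have h4 : b.1.1 y - y ≤ 0 := by
                by_contra h5
                push Not at h5
                have := mul_neg_of_neg_of_pos (show a.1.1 y - y < 0 by linarith) h5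
                linarith
              have h5 := g.1.monotone h2
              have h6 := g.1.monotone (show b.1.1 y ≤ y by linarith)
              exact mul_nonneg_of_nonpos_of_nonpos (by linarith) (by linarith)
        have h1 : 0 ≤ ℓ a' * ℓ b' := ge_of_tendsto (hlim a' b')
          (Eventually.of_forall fun x => div_nonneg (hpos' x) (sq_nonneg _))
        have ha1' : a'.1 ≠ 1 := by
          intro e
          apply ha1
          have h2 : g * a.1 * g⁻¹ = 1 := e
          have h3 : a.1 = g⁻¹ * (g * a.1 * g⁻¹) * g := by group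
          rw [h3, h2]; group
        have hb1' : b'.1 ≠ 1 := by
          intro e
          apply hb1
          have h2 : g * b.1 * g⁻¹ = 1 := e
          have h3 : b.1 = g⁻¹ * (g * b.1 * g⁻¹) * g := by group
          rw [h3, h2]; group
        exact lt_of_le_of_ne h1 (mul_ne_zero (hℓnz a' ha1') (hℓnz b' hb1')).symm
    -- commutators commute with `t`
    have hct : commutator (LGrp G hG) ≤ Subgroup.centralizer {t} := by
      rw [commutator_def, Subgroup.commutator_le]
      intro g _ h _
      rw [Subgroup.mem_centralizer_iff]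
      intro s hs
      rw [Set.mem_singleton_iff] at hs
      rw [hs]
      exact (hcent g h ⟨t, htA⟩).symm
    refine derived_two_of_comm fun a b ha hb => ?_
    exact hPara.comm (hcom ha) (hcom hb)
      (Subgroup.mem_centralizer_iff.1 (hct ha) t rfl)
      (Subgroup.mem_centralizer_iff.1 (hct hb) t rfl)

/-- The main theorem. -/
theorem circle_noLaw (hG : AnGrp G) (hd : derivedSeries G 2 ≠ ⊥) {r : ℕ}
    {w : FreeGroup (Fin r)} (hw : w ≠ 1) : ∃ f : Fin r → G, FreeGroup.lift f w ≠ 1 := by
  by_contra hlaw
  push Not at hlaw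
  by_cases hfin : ∃ z : Ci, (MulAction.orbit G z).Finite
  · obtain ⟨z, hz⟩ := hfin
    exact hd (metab_of_finite hG hz hw hlaw)
  · push Not at hfin
    by_cases hfix : ∃ g : G, g ≠ 1 ∧ ∃ z : Ci, g.1 z = z
    · obtain ⟨g, hg, z, hz⟩ := hfix
      obtain ⟨f, hf⟩ := no_law_of_fix hG hfin hg hz hw
      exact hf (hlaw f)
    · push Not at hfix
      refine hd (derived_two_of_comm fun a b _ _ => comm_of_free hG ?_ a b)
      rintro σ hσ ⟨z, hz⟩
      by_contra hne
      exact hfix ⟨σ, hσ⟩ (fun e => hne (congrArg Subtype.val e)) z hz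

end Pool.Agent.H13.NLC
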